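import Mathlib

set_option autoImplicit false

namespace Pool.Agent.P.MP_50039c_nt

lemma pow4 {x y s : ℤ} (h : IsCoprime x y) (hx : 0 < x) (hy : 0 < y) (e : x * y = s ^ 4) :
    ∃ u v : ℤ, x = u ^ 4 ∧ y = v ^ 4 ∧ (u * v) ^ 2 = s ^ 2 := by
  have e1 : x * y = (s ^ 2) ^ 2 := by rw [e]; ring
  obtain ⟨x0, hx0⟩ := Int.sq_of_isCoprime h e1
  obtain ⟨y0, hy0⟩ := Int.sq_of_isCoprime h.symm (by rw [mul_comm]; exact e1)
  have hx1 : x = |x0| ^ 2 := by
    rcases hx0 with h1 | h1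
    · rw [sq_abs]; exact h1
    · nlinarith [sq_nonneg x0]
  have hy1 : y = |y0| ^ 2 := by
    rcases hy0 with h1 | h1
    · rw [sq_abs]; exact h1
    · nlinarith [sq_nonneg y0]
  have hc : IsCoprime |x0| |y0| := by
    rw [hx1, hy1] at h
    exact (IsCoprime.pow_iff (by norm_num) (by norm_num)).1 h
  have e2 : |x0| * |y0| = s ^ 2 := by
    have h1 : (|x0| * |y0|) ^ 2 = (s ^ 2) ^ 2 := by rw [mul_pow, ← hx1, ← hy1, e1]
    exact (pow_left_inj₀ (by positivity) (by positivity) (by norm_num)).1 h1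
  have hx2 : 0 < |x0| := by
    rcases (abs_nonneg x0).lt_or_eq with h1 | h1
    · exact h1
    · rw [← h1] at hx1; simp [hx1] at hx
  have hy2 : 0 < |y0| := by
    rcases (abs_nonneg y0).lt_or_eq with h1 | h1
    · exact h1
    · rw [← h1] at hy1; simp [hy1] at hy
  obtain ⟨u, hu⟩ := Int.sq_of_isCoprime hc e2
  obtain ⟨v, hv⟩ := Int.sq_of_isCoprime hc.symm (by rw [mul_comm]; exact e2)
  have hu1 : |x0| = u ^ 2 := by
    rcases hu with h1 | h1
    · exact h1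
    · nlinarith [sq_nonneg u]
  have hv1 : |y0| = v ^ 2 := by
    rcases hv with h1 | h1
    · exact h1
    · nlinarith [sq_nonneg v]
  refine ⟨u, v, by rw [hx1, hu1]; ring, by rw [hy1, hv1]; ring, ?_⟩
  rw [mul_pow, ← hu1, ← hv1, e2]

/-- coprimality through primes -/
lemma cop_of_prime {x y : ℤ} (h : ∀ p : ℤ, Prime p → p ∣ x → p ∣ y → False) : IsCoprime x y := by
  rw [Int.isCoprime_iff_gcd_eq_one]
  by_contra hne
  obtain ⟨p, hp, hd⟩ := Nat.exists_prime_and_dvd hne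
  exact h p (Nat.prime_iff_prime_int.1 hp) ((Int.natCast_dvd_natCast.2 hd).trans (Int.gcd_dvd_left _ _))
    ((Int.natCast_dvd_natCast.2 hd).trans (Int.gcd_dvd_right _ _))

lemma not_cop {x y p : ℤ} (h : IsCoprime x y) (hp : Prime p) (h1 : p ∣ x) (h2 : p ∣ y) : False :=
  hp.not_isUnit (h.isUnit_of_dvd' h1 h2)

lemma odd_case (M e N : ℤ) (he : Odd e) : N ^ 2 ≠ M ^ 4 - 4 * M ^ 2 * e ^ 2 - e ^ 4 := by
  intro h
  have key : ∀ M e N : ZMod 16, N ^ 2 ≠ M ^ 4 - 4 * M ^ 2 * (2 * e + 1) ^ 2 - (2 * e + 1) ^ 4 := by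
    decide +kernel
  obtain ⟨f, rfl⟩ := he
  apply key M f N
  have := congrArg (Int.cast : ℤ → ZMod 16) h
  push_cast at this
  exact this

/-- splitting of `U V = 20 f^4` when `4 ∣ V` -/
lemma split20 {U V f : ℤ} (hc : IsCoprime U V) (hU : 0 < U) (hV : 0 < V) (h4 : (2 : ℤ) ∣ V)
    (e : U * V = 20 * f ^ 4) :
    ∃ r s : ℤ, IsCoprime r s ∧ (r * s) ^ 2 = f ^ 2 ∧
      ((U = r ^ 4 ∧ V = 20 * s ^ 4) ∨ (U = 5 * s ^ 4 ∧ V = 4 * r ^ 4)) := by
  have h2U : IsCoprime (2 : ℤ) U := (hc.of_isCoprime_of_dvd_right h4).symm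
  have h4V : (4 : ℤ) ∣ V := by
    have : IsCoprime (4 : ℤ) U := by
      have := h2U.pow_left (m := 2); norm_num at this; exact this
    exact this.dvd_of_dvd_mul_left ⟨5 * f ^ 4, by rw [e]; ring⟩
  obtain ⟨W, rfl⟩ := h4V
  have hW : 0 < W := by linarith
  have e1 : U * W = 5 * f ^ 4 := by linarith
  have hcW : IsCoprime U W := hc.of_isCoprime_of_dvd_right ⟨4, by ring⟩
  have h5 : Prime (5 : ℤ) := Int.prime_iff_natAbs_prime.2 (by norm_num)
  rcases h5.dvd_or_dvd (show (5 : ℤ) ∣ U * W from ⟨f ^ 4, e1⟩) with ⟨U', rfl⟩ | ⟨W', rfl⟩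
  · have hc' : IsCoprime W U' := (hcW.of_isCoprime_of_dvd_left ⟨5, by ring⟩).symm
    obtain ⟨r, s, h1, h2, h3⟩ := pow4 (s := f) hc' hW (by linarith) (by linarith)
    refine ⟨r, s, ?_, h3, Or.inr ⟨by rw [h2], by rw [h1]⟩⟩
    rw [h1, h2] at hc'
    exact (IsCoprime.pow_iff (by norm_num) (by norm_num)).1 hc'
  · have hc' : IsCoprime U W' := hcW.of_isCoprime_of_dvd_right ⟨5, by ring⟩
    obtain ⟨r, s, h1, h2, h3⟩ := pow4 (s := f) hc' hU (by linarith) (by linarith)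
    refine ⟨r, s, ?_, h3, Or.inl ⟨h1, by rw [h2]; ring⟩⟩
    rw [h1, h2] at hc'
    exact (IsCoprime.pow_iff (by norm_num) (by norm_num)).1 hc'

lemma step (M f N : ℤ) (hc : IsCoprime M (2 * f)) (hf : f ≠ 0)
    (h : N ^ 2 = M ^ 4 - 4 * M ^ 2 * (2 * f) ^ 2 - (2 * f) ^ 4) :
    ∃ M' e' N' : ℤ, IsCoprime M' e' ∧ e' ≠ 0 ∧ e' ^ 2 ≤ f ^ 2 ∧
      N' ^ 2 = M' ^ 4 - 4 * M' ^ 2 * e' ^ 2 - e' ^ 4 := by
  have p2 : Prime (2 : ℤ) := Int.prime_two
  have hMo : Odd M := by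
    rcases Int.even_or_odd M with h1 | h1
    · exact (not_cop hc p2 h1.two_dvd ⟨f, rfl⟩).elim
    · exact h1
  have hNo : Odd N := by
    rcases Int.even_or_odd N with h1 | h1
    · exfalso
      obtain ⟨n, rfl⟩ := h1
      obtain ⟨m, rfl⟩ := hMo
      have : (2 : ℤ) ∣ 1 := ⟨2 * n ^ 2 + 8 * (2 * m + 1) ^ 2 * f ^ 2 + 8 * f ^ 4 -
        (8 * m ^ 4 + 16 * m ^ 3 + 12 * m ^ 2 + 4 * m), by linear_combination (-1 : ℤ) * h⟩
      norm_num at this
    · exact h1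
  obtain ⟨m, hm⟩ := hMo
  obtain ⟨n, hn⟩ := hNo
  have hf2 : 0 < f ^ 2 := by positivity
  set U : ℤ := 2 * m ^ 2 + 2 * m - 4 * f ^ 2 - n with hU
  set V : ℤ := 2 * m ^ 2 + 2 * m - 4 * f ^ 2 + n + 1 with hV
  have hs : U + V = M ^ 2 - 8 * f ^ 2 := by rw [hU, hV, hm]; ring
  have hp : U * V = 20 * f ^ 4 := by
    have : 4 * (U * V) = 4 * (20 * f ^ 4) := by
      rw [hU, hV]; rw [hm, hn] at h; linear_combination (-1 : ℤ) * h
    linarith
  have hsp : 0 < U + V := by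
    rw [hs]
    by_contra hle
    have h1 : M ^ 2 ≤ 8 * f ^ 2 := by linarith
    have h2 : 0 ≤ M ^ 2 := sq_nonneg M
    nlinarith [sq_nonneg N, mul_nonneg h2 (sub_nonneg.2 h1)]
  have hpp : 0 < U * V := by rw [hp]; positivity
  have hU0 : 0 < U := by
    by_contra h1
    have h2 : U ≤ 0 := by linarith
    have h3 : 0 < V := by linarith
    nlinarith
  have hV0 : 0 < V := by
    by_contra h1
    have h2 : V ≤ 0 := by linarith
    nlinarith
  have hUV : IsCoprime U V := by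
    apply cop_of_prime
    intro p hpr h1 h2
    have h3 : p ∣ M ^ 2 - 8 * f ^ 2 := hs ▸ dvd_add h1 h2
    have hnf : ¬ p ∣ 2 * f := fun h4 => by
      have h5 : p ∣ M ^ 2 := by
        have : p ∣ 8 * f ^ 2 := by
          have : 8 * f ^ 2 = 2 * f * (4 * f) := by ring
          rw [this]; exact h4.mul_right _
        have h6 := dvd_add h3 this
        simpa using h6
      exact not_cop hc hpr (hpr.dvd_of_dvd_pow h5) h4
    have h4 : p * p ∣ 5 * (2 * f) ^ 4 := by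
      have : 5 * (2 * f) ^ 4 = U * V * 4 := by rw [hp]; ring
      rw [this]; exact (mul_dvd_mul h1 h2).mul_right _
    have h5 : IsCoprime (p * p) ((2 * f) ^ 4) := by
      have := (hpr.coprime_iff_not_dvd.2 hnf)
      exact (this.mul_left this).pow_right
    have h6 : p * p ∣ 5 := h5.dvd_of_dvd_mul_right h4
    have h7 : Squarefree (5 : ℤ) := (Int.prime_iff_natAbs_prime.2 (by norm_num)).squarefree
    exact hpr.not_isUnit (h7 p h6)
  have hodd : (2 : ℤ) ∣ U ∨ (2 : ℤ) ∣ V := p2.dvd_or_dvd ⟨10 * f ^ 4, by rw [hp]; ring⟩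
  have main : ∃ r s : ℤ, IsCoprime r s ∧ (r * s) ^ 2 = f ^ 2 ∧
      (M ^ 2 = r ^ 4 + 20 * s ^ 4 + 8 * (r * s) ^ 2 ∨
        M ^ 2 = 5 * s ^ 4 + 4 * r ^ 4 + 8 * (r * s) ^ 2) := by
    rcases hodd with h2 | h2
    · obtain ⟨r, s, h3, h4, h5⟩ := split20 hUV.symm hV0 hU0 h2 (by rw [mul_comm]; exact hp)
      refine ⟨r, s, h3, h4, ?_⟩
      rcases h5 with ⟨h5, h6⟩ | ⟨h5, h6⟩
      · left; rw [h4]; linarith
      · right; rw [h4]; linarith
    · obtain ⟨r, s, h3, h4, h5⟩ := split20 hUV hU0 hV0 h2 hp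
      refine ⟨r, s, h3, h4, ?_⟩
      rcases h5 with ⟨h5, h6⟩ | ⟨h5, h6⟩
      · left; rw [h4]; linarith
      · right; rw [h4]; linarith
  obtain ⟨r, s, hrs, hrf, hM⟩ := main
  have hr0 : r ≠ 0 := by rintro rfl; simp at hrf; exact hf (pow_eq_zero_iff (two_ne_zero) |>.1 hrf.symm)
  have hs0 : s ≠ 0 := by rintro rfl; simp at hrf; exact hf (pow_eq_zero_iff (two_ne_zero) |>.1 hrf.symm)
  have hr2 : 1 ≤ r ^ 2 := by have : 0 < r ^ 2 := by positivity
                             omega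
  have hsf : s ^ 2 ≤ f ^ 2 := by rw [← hrf, mul_pow]; nlinarith [sq_nonneg s]
  have hs4 : 0 < s ^ 4 := by positivity
  have fin : ∀ x y R : ℤ, IsCoprime x y → 0 < x → 0 < y → x * y = s ^ 4 →
      (∀ u v : ℤ, x = u ^ 4 → y = v ^ 4 → (u * v) ^ 2 = s ^ 2 →
        R ^ 2 = v ^ 4 - 4 * v ^ 2 * u ^ 2 - u ^ 4) →
      ∃ M' e' N' : ℤ, IsCoprime M' e' ∧ e' ≠ 0 ∧ e' ^ 2 ≤ f ^ 2 ∧
        N' ^ 2 = M' ^ 4 - 4 * M' ^ 2 * e' ^ 2 - e' ^ 4 := by
    intro x y R hxy hx hy e hR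
    obtain ⟨u, v, h1, h2, h3⟩ := pow4 hxy hx hy e
    have hu0 : u ≠ 0 := by rintro rfl; simp [h1] at hx
    have hv0 : v ≠ 0 := by rintro rfl; simp [h2] at hy
    have hv2 : 1 ≤ v ^ 2 := by have : 0 < v ^ 2 := by positivity
                               omega
    refine ⟨v, u, R, ?_, hu0, ?_, hR u v h1 h2 h3⟩
    · rw [h1, h2] at hxy
      exact ((IsCoprime.pow_iff (by norm_num) (by norm_num)).1 hxy).symm
    · rw [mul_pow] at h3; nlinarith [sq_nonneg u]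
  have hA : |M| ^ 2 = M ^ 2 := sq_abs M
  have hA0 : 0 ≤ |M| := abs_nonneg M
  have hAo : Odd |M| := by rw [odd_abs]; exact ⟨m, hm⟩
  obtain ⟨a, ha⟩ := hAo
  rcases hM with hM | hM
  · have hro : Odd r := by
      rcases Int.even_or_odd r with h1 | h1
      · exfalso
        obtain ⟨r', rfl⟩ := h1
        have : (2 : ℤ) ∣ 1 := ⟨8 * r' ^ 4 + 10 * s ^ 4 + 4 * ((r' + r') * s) ^ 2 - 2 * m ^ 2 - 2 * m,
          by rw [hm] at hM; linear_combination hM⟩
        norm_num at this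
      · exact h1
    obtain ⟨q, hq⟩ := hro
    have e1 : |M| ^ 2 = (r ^ 2 + 4 * s ^ 2) ^ 2 + 4 * s ^ 4 := by rw [hA, hM]; ring
    have hx : 0 < |M| - (r ^ 2 + 4 * s ^ 2) := by
      by_contra h1
      have h2 : |M| ≤ r ^ 2 + 4 * s ^ 2 := by linarith
      nlinarith
    set x : ℤ := a - (2 * q ^ 2 + 2 * q + 2 * s ^ 2) with hxd
    set y : ℤ := a + (2 * q ^ 2 + 2 * q + 2 * s ^ 2) + 1 with hyd
    have h2x : 2 * x = |M| - (r ^ 2 + 4 * s ^ 2) := by rw [hxd, ha, hq]; ring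
    have h2y : 2 * y = |M| + (r ^ 2 + 4 * s ^ 2) := by rw [hyd, ha, hq]; ring
    have hxy : x * y = s ^ 4 := by
      have : (2 * x) * (2 * y) = 4 * s ^ 4 := by rw [h2x, h2y]; linear_combination e1
      linarith
    have hd : y - x = r ^ 2 + 4 * s ^ 2 := by linarith
    refine fin x y r ?_ (by linarith) (by nlinarith [sq_nonneg r, sq_nonneg s]) hxy ?_
    · apply cop_of_prime
      intro p hpr h1 h2
      have h3 : p ∣ s := hpr.dvd_of_dvd_pow (hxy ▸ h1.mul_right y)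
      have h4 : p ∣ r ^ 2 := by
        have h5 : r ^ 2 = (y - x) - s * (4 * s) := by rw [hd]; ring
        rw [h5]; exact dvd_sub (dvd_sub h2 h1) (h3.mul_right _)
      exact not_cop hrs hpr (hpr.dvd_of_dvd_pow h4) h3
    · intro u v h1 h2 h3
      rw [h1, h2, ← h3] at hd
      linear_combination (-1 : ℤ) * hd
  · have hso : Odd s := by
      rcases Int.even_or_odd s with h1 | h1
      · exfalso
        obtain ⟨s', rfl⟩ := h1
        have : (2 : ℤ) ∣ 1 := ⟨40 * s' ^ 4 + 2 * r ^ 4 + 4 * (r * (s' + s')) ^ 2 - 2 * m ^ 2 - 2 * m,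
          by rw [hm] at hM; linear_combination hM⟩
        norm_num at this
      · exact h1
    have e1 : |M| ^ 2 = (2 * r ^ 2 + 2 * s ^ 2) ^ 2 + s ^ 4 := by rw [hA, hM]; ring
    have hx : 0 < |M| - (2 * r ^ 2 + 2 * s ^ 2) := by
      by_contra h1
      have h2 : |M| ≤ 2 * r ^ 2 + 2 * s ^ 2 := by linarith
      nlinarith
    set x : ℤ := |M| - (2 * r ^ 2 + 2 * s ^ 2) with hxd
    set y : ℤ := |M| + (2 * r ^ 2 + 2 * s ^ 2) with hyd
    have hxy : x * y = s ^ 4 := by rw [hxd, hyd]; linear_combination e1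
    have hd : y - x = 4 * r ^ 2 + 4 * s ^ 2 := by rw [hxd, hyd]; ring
    refine fin x y (2 * r) ?_ hx (by nlinarith [sq_nonneg r, sq_nonneg s]) hxy ?_
    · apply cop_of_prime
      intro p hpr h1 h2
      have h3 : p ∣ s := hpr.dvd_of_dvd_pow (hxy ▸ h1.mul_right y)
      have h4 : p ∣ (2 * r) ^ 2 := by
        have h5 : (2 * r) ^ 2 = (y - x) - s * (4 * s) := by rw [hd]; ring
        rw [h5]; exact dvd_sub (dvd_sub h2 h1) (h3.mul_right _)
      have h6 : IsCoprime (2 * r) s := by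
        refine IsCoprime.mul_left ?_ hrs
        obtain ⟨s', hs'⟩ := hso
        exact ⟨-s', 1, by rw [hs']; ring⟩
      exact not_cop h6 hpr (hpr.dvd_of_dvd_pow h4) h3
    · intro u v h1 h2 h3
      rw [h1, h2, ← h3] at hd
      linear_combination (-1 : ℤ) * hd

theorem no_sol : ∀ (k : ℕ) (M e N : ℤ), e.natAbs = k → IsCoprime M e → e ≠ 0 →
    N ^ 2 ≠ M ^ 4 - 4 * M ^ 2 * e ^ 2 - e ^ 4 := by
  intro k
  induction k using Nat.strong_induction_on with
  | _ k ih =>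
    intro M e N hk hc he h
    rcases Int.even_or_odd e with h1 | h1
    · obtain ⟨f, rfl⟩ := h1
      have hf : f ≠ 0 := by rintro rfl; simp at he
      rw [← two_mul] at hc h hk
      obtain ⟨M', e', N', h2, h3, h4, h5⟩ := step M f N hc hf h
      refine ih e'.natAbs ?_ M' e' N' rfl h2 h3 h5
      have h6 : e'.natAbs ≤ f.natAbs := by
        rw [Int.natAbs_le_iff_sq_le]; exact h4
      have h7 : 0 < f.natAbs := Int.natAbs_pos.2 hf
      omega
    · exact odd_case M e N h1 h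

/-- The elliptic curve `Y^2 = Z (Z^2 - 4 Z - 1)` of conductor 160 has only the point `(0,0)`. -/
theorem curve (Z Y : ℚ) (h : Y ^ 2 = Z * (Z ^ 2 - 4 * Z - 1)) : Z = 0 := by
  by_contra hZ
  set p : ℤ := Z.num with hp
  set q : ℤ := (Z.den : ℤ) with hq
  have hq0 : 0 < q := by rw [hq]; exact_mod_cast Z.den_pos
  have hp0 : p ≠ 0 := by rw [hp]; exact Rat.num_ne_zero.2 hZ
  have hZe : Z = p / q := by rw [hp, hq]; exact_mod_cast (Rat.num_div_den Z).symm
  have hc : IsCoprime p q := by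
    rw [Int.isCoprime_iff_gcd_eq_one, hp, hq]; exact Z.reduced
  have hqq : (q : ℚ) ≠ 0 := by exact_mod_cast hq0.ne'
  have hsq : IsSquare ((p * q * (p ^ 2 - 4 * p * q - q ^ 2) : ℤ) : ℚ) := by
    refine ⟨Y * q ^ 2, ?_⟩
    have : Y * q ^ 2 * (Y * q ^ 2) = Y ^ 2 * q ^ 4 := by ring
    rw [this, h, hZe]; push_cast; field_simp
  rw [Rat.isSquare_intCast_iff] at hsq
  obtain ⟨W, hW⟩ := hsq
  set D : ℤ := p ^ 2 - 4 * p * q - q ^ 2 with hD
  have c1 : IsCoprime p D := by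
    have : D = -(q ^ 2) + p * (p - 4 * q) := by rw [hD]; ring
    rw [this]; exact (hc.pow_right.neg_right).add_mul_left_right _
  have c2 : IsCoprime q D := by
    have : D = p ^ 2 + q * (-4 * p - q) := by rw [hD]; ring
    rw [this]; exact (hc.symm.pow_right).add_mul_left_right _
  obtain ⟨M, hM⟩ := Int.sq_of_isCoprime (c := W) (hc.mul_right c1) (by rw [sq, ← hW]; ring)
  obtain ⟨e, he⟩ := Int.sq_of_isCoprime (c := W) (hc.symm.mul_right c2) (by rw [sq, ← hW]; ring)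
  obtain ⟨N, hN⟩ := Int.sq_of_isCoprime (c := W) (c1.symm.mul_right c2.symm)
    (by rw [sq, ← hW]; ring)
  have he1 : q = e ^ 2 := by
    rcases he with h1 | h1
    · exact h1
    · nlinarith [sq_nonneg e]
  have he0 : e ≠ 0 := by rintro rfl; simp [he1] at hq0
  have hM0 : M ≠ 0 := by rintro rfl; rcases hM with h1 | h1 <;> simp [h1] at hp0
  have hMp : 0 < M ^ 2 := by positivity
  have hMe : IsCoprime M e := by
    rcases hM with h1 | h1
    · rw [h1, he1] at hc; exact (IsCoprime.pow_iff (by norm_num) (by norm_num)).1 hc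
    · rw [h1, he1, IsCoprime.neg_left_iff] at hc
      exact (IsCoprime.pow_iff (by norm_num) (by norm_num)).1 hc
  have hW0 : 0 ≤ p * q * D := by rw [hW]; exact mul_self_nonneg W
  have hN0 : N ≠ 0 := by
    rintro rfl
    have hD0 : D = 0 := by rcases hN with h1 | h1 <;> simpa using h1
    rw [hD0] at c1 c2
    have h1 := isCoprime_zero_right.1 c1
    have h2 := isCoprime_zero_right.1 c2
    rw [Int.isUnit_iff] at h1 h2
    rcases h1 with h1 | h1 <;> rcases h2 with h2 | h2 <;> rw [hD, h1, h2] at hD0 <;> norm_num at hD0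
  have hNp : 0 < N ^ 2 := by positivity
  rcases hM with h1 | h1
  · rcases hN with h2 | h2
    · apply no_sol _ M e N rfl hMe he0
      rw [← h2, hD, h1, he1]; ring
    · rw [h1, h2] at hW0
      nlinarith [mul_pos (mul_pos hMp hq0) hNp]
  · rcases hN with h2 | h2
    · rw [h1, h2] at hW0
      nlinarith [mul_pos (mul_pos hMp hq0) hNp]
    · apply no_sol _ e M N rfl hMe.symm hM0
      have : N ^ 2 = -D := by rw [h2]; ring
      rw [this, hD, h1, he1]; ring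

end Pool.Agent.P.MP_50039c_nt
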