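import Mathlib

set_option autoImplicit false

open Polynomial IntermediateField Module

namespace Pool.Agent.P.MP_50039c_nt

lemma double {E F : IntermediateField ℚ ℂ} [FiniteDimensional ℚ F] (h : E ≤ F) {x : ℂ}
    (hx : x ∈ F) (hx' : x ∉ E) : 2 * finrank ℚ E ≤ finrank ℚ F := by
  obtain ⟨d, hd⟩ := finrank_dvd_of_le_right h
  have hpos : 0 < finrank ℚ F := finrank_pos
  have h1 : d ≠ 1 := by
    rintro rfl
    have := eq_of_le_of_finrank_eq h (by rw [hd, mul_one])
    exact hx' (this ▸ hx)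
  have h0 : d ≠ 0 := by rintro rfl; simp [hd] at hpos
  rw [hd]; nlinarith [show 2 ≤ d by omega]

lemma irr_of_finrank {p : ℚ[X]} (hp : p.Monic) {x : ℂ} (hx : aeval x p = 0)
    (hd : p.natDegree ≤ finrank ℚ ℚ⟮x⟯) : Irreducible p := by
  have hi : IsIntegral ℚ x := ⟨p, hp, hx⟩
  rw [adjoin.finrank hi] at hd
  have := eq_of_monic_of_dvd_of_natDegree_le (minpoly.monic hi) hp (minpoly.dvd ℚ x hx) hd
  rw [this]; exact minpoly.irreducible hi

lemma finrank_of_irr {p : ℚ[X]} (hp : p.Monic) (hirr : Irreducible p) {x : ℂ}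
    (hx : aeval x p = 0) : finrank ℚ ℚ⟮x⟯ = p.natDegree := by
  have hi : IsIntegral ℚ x := ⟨p, hp, hx⟩
  rw [adjoin.finrank hi, ← minpoly.eq_of_irreducible_of_monic hirr hx hp]

lemma im_eq_zero {r : ℝ} {z : ℂ} (hz : z ∈ ℚ⟮(r : ℂ)⟯) : z.im = 0 := by
  have : ℚ⟮(r : ℂ)⟯ ≤ (IsScalarTower.toAlgHom ℚ ℝ ℂ).fieldRange :=
    adjoin_simple_le_iff.2 ⟨r, rfl⟩
  obtain ⟨y, rfl⟩ := this hz
  exact Complex.ofReal_im y

/-- An irreducible polynomial with a negative real root stays irreducible under `X ↦ X^2`. -/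
lemma irr_comp_sq {q : ℚ[X]} (hq : q.Monic) (hirr : Irreducible q) {r : ℝ} (hr : r < 0)
    (hx : aeval r q = 0) : Irreducible (q.comp (X ^ 2)) := by
  have hxc : aeval (r : ℂ) q = 0 := by
    have := aeval_algebraMap_apply ℂ r q
    rw [hx, map_zero] at this; exact this
  set t : ℂ := Complex.I * (Real.sqrt (-r) : ℝ) with ht
  have ht2 : t ^ 2 = (r : ℂ) := by
    rw [ht, mul_pow, Complex.I_sq, ← Complex.ofReal_pow, Real.sq_sqrt (by linarith)]; simp
  have hm : (q.comp (X ^ 2)).Monic := hq.comp (monic_X_pow 2) (by simp)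
  have hroot : aeval t (q.comp (X ^ 2)) = 0 := by
    rw [aeval_comp]; simp [ht2, hxc]
  have hi : IsIntegral ℚ t := ⟨_, hm, hroot⟩
  have := adjoin.finiteDimensional hi
  refine irr_of_finrank hm hroot ?_
  have hle : ℚ⟮(r : ℂ)⟯ ≤ ℚ⟮t⟯ := by
    rw [adjoin_simple_le_iff, ← ht2]; exact pow_mem (mem_adjoin_simple_self ℚ t) 2
  have hnot : t ∉ ℚ⟮(r : ℂ)⟯ := fun h => by
    have h1 := im_eq_zero h
    rw [ht] at h1
    simp at h1
    have := Real.sqrt_pos.2 (show 0 < -r by linarith)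
    linarith
  have := double hle (mem_adjoin_simple_self ℚ t) hnot
  rw [finrank_of_irr hq hirr hxc] at this
  rw [natDegree_comp]; simp; linarith

lemma norm_sub {K L : Type} [Field K] [Field L] [Algebra K L] {x : L} (hi : IsIntegral K x) (c : K) :
    Algebra.norm K (algebraMap K K⟮x⟯ c - AdjoinSimple.gen K x) = (minpoly K x).eval c := by
  classical
  have h1 := charpoly_leftMulMatrix (adjoin.powerBasis hi)
  rw [Algebra.norm_eq_matrix_det (adjoin.powerBasis hi).basis, map_sub, AlgHom.commutes,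
    ← minpoly_gen K x]
  rw [adjoin.powerBasis_gen] at h1
  rw [← h1, Matrix.eval_charpoly]
  rfl

/-- if `(c - x) (d - x)` is a square in `K(x)` then `f(c) f(d)` is a square in `K`. -/
lemma sq_of_sq {K L : Type} [Field K] [Field L] [Algebra K L] {x : L} (hi : IsIntegral K x)
    (c d : K) {y : L} (hy : y ∈ K⟮x⟯)
    (h : y ^ 2 = (algebraMap K L c - x) * (algebraMap K L d - x)) :
    ∃ u : K, u ^ 2 = (minpoly K x).eval c * (minpoly K x).eval d := by
  refine ⟨Algebra.norm K (⟨y, hy⟩ : K⟮x⟯), ?_⟩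
  rw [← norm_sub hi, ← norm_sub hi, ← map_mul, ← map_pow]
  congr 1
  apply Subtype.ext
  simpa using h

end Pool.Agent.P.MP_50039c_nt
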