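import Mathlib
import Pool.Prelude.Def_F_ee2aeab6
import Pool.Agent.P.MP_50039c_nt.Descent
import Pool.Agent.P.MP_50039c_nt.Tower

set_option autoImplicit false

open Polynomial IntermediateField Module

namespace Pool.Agent.P.MP_50039c_nt

noncomputable def cub (k : ℚ) : ℚ[X] :=
  X ^ 3 + C (6 - 2 * k) * X ^ 2 + C (k ^ 2 + 4 * k - 16) * X + C (6 * k ^ 2 - 32)

lemma cub_monic (k : ℚ) : (cub k).Monic := by unfold cub; monicity!

lemma cub_deg (k : ℚ) : (cub k).natDegree = 3 := by unfold cub; compute_degree!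

lemma cub_irr (l : ℚ) (hl : l ≠ 0) : Irreducible (cub (l ^ 2 + 2)) := by
  apply irreducible_of_degree_le_three_of_not_isRoot
  · rw [cub_deg]; simp
  intro w hw
  set k := l ^ 2 + 2 with hk
  have hl2 : 0 < l ^ 2 := by positivity
  have h : w ^ 3 + (6 - 2 * k) * w ^ 2 + (k ^ 2 + 4 * k - 16) * w + (6 * k ^ 2 - 32) = 0 := by
    simpa [cub] using hw
  have hw2 : w + 2 ≠ 0 := by
    intro h0
    have : w = -2 := by linarith
    rw [this] at h
    nlinarith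
  set n : ℚ := ((w + 6) * k - w * (w - 2)) / (4 * (w + 2)) with hn
  have hn1 : 4 * (w + 2) * n = (w + 6) * k - w * (w - 2) := by rw [hn]; field_simp
  have hn2 : n ^ 2 = 3 - w := by
    have : (4 * (w + 2)) ^ 2 * (n ^ 2 - (3 - w)) = 0 := by
      have e : (4 * (w + 2)) ^ 2 * n ^ 2 = ((w + 6) * k - w * (w - 2)) ^ 2 := by rw [← hn1]; ring
      linear_combination e + (w + 6) * h
    rcases mul_eq_zero.1 this with h1 | h1
    · exact absurd h1 (by positivity)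
    · linarith
  have hwn : w = 3 - n ^ 2 := by linarith
  have h3 : (n - 3) * ((n + 3) * l ^ 2 + (n - 1) * (n ^ 2 - 5)) = 0 := by
    rw [hwn, hk] at hn1
    linear_combination hn1
  rcases mul_eq_zero.1 h3 with h4 | h4
  · have : n = 3 := by linarith
    rw [this] at hwn
    rw [hwn, hk] at h
    nlinarith
  · have hn3 : n - 1 ≠ 0 := by
      intro h0
      have : n = 1 := by linarith
      rw [this] at h4; nlinarith
    have := curve ((n + 3) / (n - 1)) (2 * (n + 3) * l / (n - 1) ^ 2) (by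
      field_simp
      linear_combination (4 * (n + 3)) * h4)
    have h5 : n = -3 := by
      rcases div_eq_zero_iff.1 this with h6 | h6
      · linarith
      · exact absurd h6 hn3
    rw [h5] at h4; norm_num at h4

/-- the sextic `Q` with `P(X) = Q(X^2)` -/
noncomputable def sex {R : Type} [CommRing R] (a b c : R) : R[X] :=
  X ^ 6 + C (6 * c ^ 2 - 2 * a ^ 2 - 2 * b ^ 2) * X ^ 5
    + C (c ^ 4 + b ^ 4 + a ^ 4 + 4 * a ^ 2 * c ^ 2 + 4 * b ^ 2 * c ^ 2 - 12 * b ^ 2 * a ^ 2)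
    * X ^ 4 + C (6 * a ^ 4 * c ^ 2 + 6 * c ^ 2 * b ^ 4 - 8 * a ^ 2 * b ^ 2 * c ^ 2
    - 2 * c ^ 4 * a ^ 2 - 2 * c ^ 4 * b ^ 2 - 2 * a ^ 4 * b ^ 2 - 2 * b ^ 4 * a ^ 2)
    * X ^ 3 + C (4 * c ^ 2 * b ^ 4 * a ^ 2 + 4 * a ^ 4 * c ^ 2 * b ^ 2
    - 12 * c ^ 4 * a ^ 2 * b ^ 2 + c ^ 4 * a ^ 4 + c ^ 4 * b ^ 4 + a ^ 4 * b ^ 4) * X ^ 2
    + C (6 * a ^ 4 * c ^ 2 * b ^ 4 - 2 * c ^ 4 * a ^ 4 * b ^ 2 - 2 * c ^ 4 * a ^ 2 * b ^ 4)
    * X + C (c ^ 4 * a ^ 4 * b ^ 4)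

lemma sex_monic (a b c : ℚ) : (sex a b c).Monic := by unfold sex; monicity!

lemma sex_deg (a b c : ℚ) : (sex a b c).natDegree = 6 := by unfold sex; compute_degree!

lemma three_of_irr (a b c : ℤ) (h : Irreducible ((sex (a : ℚ) b c).comp (X ^ 2))) :
    N2f636d21.CuboidThreeFor a b c := by
  unfold N2f636d21.CuboidThreeFor
  rw [Monic.irreducible_iff_irreducible_map_fraction_map (K := ℚ) (by monicity!)]
  refine (congrArg Irreducible ?_).mp h
  simp only [sex, add_comp, mul_comp, pow_comp, X_comp, C_comp, Polynomial.map_add,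
    Polynomial.map_mul, Polynomial.map_pow, map_X, map_C, ← pow_mul]
  simp

lemma sex_irr (a b c : ℚ) (hc0 : c ≠ 0) (hab : a ≠ b) (hc : c ^ 2 = a * b) :
    ∃ T : ℝ, T < 0 ∧ aeval T (sex a b c) = 0 ∧ Irreducible (sex a b c) := by
  have ha0 : a ≠ 0 := by rintro rfl; simp [hc0] at hc
  have hb : b = c ^ 2 / a := by rw [hc]; field_simp
  set l : ℚ := a / c - c / a with hl
  have hl0 : l ≠ 0 := by
    intro h0
    rw [hl, sub_eq_zero, div_eq_div_iff hc0 ha0] at h0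
    apply hab
    have : a * a = a * b := by rw [h0, ← hc]; ring
    exact mul_left_cancel₀ ha0 this
  set k : ℚ := l ^ 2 + 2 with hk
  have hk2 : 2 < k := by have : 0 < l ^ 2 := by positivity
                         linarith
  have hkR : (2 : ℝ) < k := by exact_mod_cast hk2
  obtain ⟨w, hw1, hw2⟩ : ∃ w ∈ Set.Ioo (-6 : ℝ) (-2),
      w ^ 3 + (6 - 2 * k) * w ^ 2 + (k ^ 2 + 4 * k - 16) * w + (6 * k ^ 2 - 32) = 0 := by
    have := intermediate_value_Ioo (show (-6 : ℝ) ≤ -2 by norm_num)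
      (f := fun w : ℝ => w ^ 3 + (6 - 2 * k) * w ^ 2 + (k ^ 2 + 4 * k - 16) * w + (6 * k ^ 2 - 32))
      (by fun_prop)
    apply this
    constructor
    · nlinarith
    · nlinarith [mul_pos (sub_pos.2 hkR) (sub_pos.2 hkR)]
  have hwr : aeval (w : ℂ) (cub k) = 0 := by
    have : ((w ^ 3 + (6 - 2 * k) * w ^ 2 + (k ^ 2 + 4 * k - 16) * w + (6 * k ^ 2 - 32) : ℝ) : ℂ)
      = 0 := by rw [hw2]; simp
    simpa [cub] using this
  have hD : 0 ≤ w ^ 2 - 4 := by nlinarith [hw1.2]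
  set δ : ℝ := Real.sqrt (w ^ 2 - 4) with hδ
  have hδ2 : δ ^ 2 = w ^ 2 - 4 := Real.sq_sqrt hD
  have hδ0 : 0 ≤ δ := Real.sqrt_nonneg _
  set τ : ℝ := (w - δ) / 2 with hτ
  have hτ0 : τ < 0 := by rw [hτ]; linarith [hw1.2]
  have hτ1 : τ ^ 2 - w * τ + 1 = 0 := by rw [hτ]; linear_combination hδ2 / 4
  have hwτ : w = τ + τ⁻¹ := by
    have := hτ0.ne
    field_simp
    linear_combination (-1 : ℝ) * hτ1
  have hcR : (c : ℝ) ≠ 0 := by exact_mod_cast hc0
  have haR : (a : ℝ) ≠ 0 := by exact_mod_cast ha0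
  have hT0 : (c : ℝ) ^ 2 * τ < 0 := mul_neg_of_pos_of_neg (by positivity) hτ0
  have hroot : aeval ((c : ℝ) ^ 2 * τ) (sex a b c) = 0 := by
    have e : aeval ((c : ℝ) ^ 2 * τ) (sex a b c) = (c : ℝ) ^ 12 * τ ^ 3 *
        (w ^ 3 + (6 - 2 * k) * w ^ 2 + (k ^ 2 + 4 * k - 16) * w + (6 * k ^ 2 - 32)) := by
      have := hτ0.ne
      simp only [sex, map_add, map_mul, map_pow, aeval_X, aeval_C, eq_ratCast]
      rw [hwτ, hk, hl, hb]
      push_cast
      field_simp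
      ring
    rw [e, hw2, mul_zero]
  refine ⟨_, hT0, hroot, ?_⟩
  set T : ℝ := (c : ℝ) ^ 2 * τ with hT
  have hrootC : aeval (T : ℂ) (sex a b c) = 0 := by
    have := aeval_algebraMap_apply ℂ T (sex a b c)
    rw [hroot, map_zero] at this; exact this
  have hi : IsIntegral ℚ (T : ℂ) := ⟨_, sex_monic a b c, hrootC⟩
  have hiw : IsIntegral ℚ (w : ℂ) := ⟨_, cub_monic k, hwr⟩
  have := adjoin.finiteDimensional hi
  refine irr_of_finrank (sex_monic a b c) hrootC ?_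
  have hcC : (c : ℂ) ≠ 0 := by exact_mod_cast hc0
  have hτT : (τ : ℂ) = (T : ℂ) / (c : ℂ) ^ 2 := by rw [hT]; push_cast; field_simp
  have hcm : ∀ E : IntermediateField ℚ ℂ, ∀ q : ℚ, (q : ℂ) ∈ E := fun E q => E.algebraMap_mem q
  have hle : ℚ⟮(w : ℂ)⟯ ≤ ℚ⟮(T : ℂ)⟯ := by
    rw [adjoin_simple_le_iff]
    have h1 : (τ : ℂ) ∈ ℚ⟮(T : ℂ)⟯ := by
      rw [hτT]; exact div_mem (mem_adjoin_simple_self ℚ _) (pow_mem (hcm _ c) 2)
    rw [hwτ]; push_cast
    exact add_mem h1 (inv_mem h1)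
  have hnot : (T : ℂ) ∉ ℚ⟮(w : ℂ)⟯ := fun h => by
    have h1 : (τ : ℂ) ∈ ℚ⟮(w : ℂ)⟯ := by
      rw [hτT]; exact div_mem h (pow_mem (hcm _ c) 2)
    have h2 : (δ : ℂ) ∈ ℚ⟮(w : ℂ)⟯ := by
      have : (δ : ℂ) = w - (τ + τ) := by rw [hτ]; push_cast; ring
      rw [this]; exact sub_mem (mem_adjoin_simple_self ℚ _) (add_mem h1 h1)
    obtain ⟨u, hu⟩ := sq_of_sq hiw 2 (-2) h2 (by
      have : (δ : ℂ) ^ 2 = (w : ℂ) ^ 2 - 4 := by exact_mod_cast hδ2
      rw [this]; simp; ring)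
    rw [← minpoly.eq_of_irreducible_of_monic (cub_irr l hl0) hwr (cub_monic _)] at hu
    set j : ℚ := a / c + c / a with hj
    have hj2 : j ^ 2 = l ^ 2 + 4 := by rw [hj, hl]; field_simp; ring
    have hj0 : j ≠ 0 := by intro h0; rw [h0] at hj2; nlinarith [sq_nonneg l]
    have hu2 : u ^ 2 = 2 * (4 * l ^ 3 * j) ^ 2 := by
      rw [hu, mul_pow, hj2]; simp [cub]; ring
    have : IsSquare (2 : ℚ) := ⟨u / (4 * l ^ 3 * j), by
      rw [← sq, div_pow, hu2]; field_simp⟩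
    have h3 : IsSquare (2 : ℕ) := Rat.isSquare_natCast_iff.1 (by simpa using this)
    exact Nat.prime_two.prime.not_isSquare h3
  have := double hle (mem_adjoin_simple_self ℚ _) hnot
  rw [finrank_of_irr (cub_monic _) (cub_irr l hl0) hwr, cub_deg] at this
  rw [sex_deg]; exact this

theorem main (a b c : ℤ) (hc0 : c ≠ 0) (hab : a ≠ b) (hc : c ^ 2 = a * b) :
    N2f636d21.CuboidThreeFor a b c := by
  obtain ⟨T, h1, h2, h3⟩ := sex_irr (a : ℚ) b c (by exact_mod_cast hc0) (by exact_mod_cast hab)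
    (by exact_mod_cast hc)
  exact three_of_irr a b c (irr_comp_sq (sex_monic _ _ _) h3 h1 h2)

end Pool.Agent.P.MP_50039c_nt
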