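import Mathlib

/-! Local analysis of factorisations of the sextic at primes dividing `w` once, and at two. -/

set_option autoImplicit false

namespace Pool.Agent.P.MP_50039c_nt.Sq

theorem dvd_of_primes {m x : ℤ} (hm : Squarefree m) (h : ∀ l : ℤ, Prime l → l ∣ m → l ∣ x) :
    m ∣ x := by
  induction m using UniqueFactorizationMonoid.induction_on_prime with
  | h₁ => exact absurd hm not_squarefree_zero
  | h₂ u hu => exact hu.dvd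
  | h₃ a l _ hl ih =>
    refine IsCoprime.mul_dvd (hl.irreducible.coprime_iff_not_dvd.2 fun h1 => ?_)
      (h l hl (dvd_mul_right _ _)) (ih hm.of_mul_right fun r hr h1 => h r hr (h1.mul_left _))
    exact hl.not_isUnit (hm l (mul_dvd_mul_left l h1))

theorem pow_le {l v : ℤ} (hl : Prime l) {i j : ℕ} (h : l ^ i ∣ l ^ j * v) (hv : ¬ l ∣ v) :
    i ≤ j :=
  (pow_dvd_pow_iff hl.ne_zero hl.not_isUnit).1
    (((hl.irreducible.coprime_iff_not_dvd.2 hv).pow_left (m := i)).dvd_of_dvd_mul_right h)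

/-- the two roots near `b ^ 2` cannot be separated -/
theorem pair {l b p u v G0 H0 G1 H1 : ℤ} (hl : Prime l) (hb : b ≠ 0) (hp : l ∣ p)
    (hp2 : ¬ l ^ 2 ∣ p) (hu : ¬ l ∣ u) (e0 : G0 * H0 = b ^ 6 * p * u)
    (e1 : G1 * H0 + G0 * H1 = b ^ 4 * p * v) (hG : ¬ l ∣ G1) (hH : ¬ l ∣ H1) : False := by
  obtain ⟨k, b', hb', rfl⟩ := WfDvdMonoid.max_power_factor' hb hl.not_isUnit
  obtain ⟨p', rfl⟩ := hp
  have hp' : ¬ l ∣ p' := fun h => hp2 (by rw [sq]; exact mul_dvd_mul_left l h)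
  have hU : ¬ l ∣ b' ^ 6 * p' * u := fun h =>
    (hl.dvd_or_dvd h).elim (fun h => (hl.dvd_or_dvd h).elim
      (fun h => hb' (hl.dvd_of_dvd_pow h)) hp') hu
  have e2 : G0 * H0 = l ^ (6 * k + 1) * (b' ^ 6 * p' * u) := by rw [e0]; ring
  have e3 : l ^ (3 * k + 1) ∣ G1 * H0 + G0 * H1 := ⟨l ^ k * b' ^ 4 * p' * v, by rw [e1]; ring⟩
  have h0 : G0 * H0 ≠ 0 := by
    rw [e2]
    exact mul_ne_zero (pow_ne_zero _ hl.ne_zero) fun h => hU (h ▸ dvd_zero l)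
  have key : ¬ (l ^ (3 * k + 1) ∣ G0 ∧ l ^ (3 * k + 1) ∣ H0) := fun h => by
    have h1 := mul_dvd_mul h.1 h.2
    rw [← pow_add, e2] at h1
    have := pow_le hl h1 hU
    omega
  obtain ⟨i, G, hG', rfl⟩ := WfDvdMonoid.max_power_factor' (left_ne_zero_of_mul h0) hl.not_isUnit
  obtain ⟨j, H, hH', rfl⟩ := WfDvdMonoid.max_power_factor' (right_ne_zero_of_mul h0) hl.not_isUnit
  have h1 : 6 * k + 1 ≤ i + j := pow_le hl (v := G * H)
    ⟨b' ^ 6 * p' * u, by rw [← e2]; ring⟩ fun h => (hl.dvd_or_dvd h).elim hG' hH'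
  rcases le_or_gt (3 * k + 1) i with h2 | h2
  · have h3 : l ^ (3 * k + 1) ∣ l ^ i * G := (pow_dvd_pow l h2).mul_right _
    exact key ⟨h3, ((hl.irreducible.coprime_iff_not_dvd.2 hG).pow_left).dvd_of_dvd_mul_left
      ((dvd_add_left (h3.mul_right H1)).1 e3)⟩
  · have h3 : l ^ (3 * k + 1) ∣ l ^ j * H := (pow_dvd_pow l (by omega)).mul_right _
    exact key ⟨((hl.irreducible.coprime_iff_not_dvd.2 hH).pow_left).dvd_of_dvd_mul_right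
      ((dvd_add_right (h3.mul_left G1)).1 e3), h3⟩

/-- the sextic in the variable `y = T + C` -/
def qy {R : Type} [CommRing R] (S w C y : R) : R :=
  y ^ 6 - 2 * S * y ^ 5 + (S ^ 2 - 14 * w) * y ^ 4 - 2 * w * (S - 18 * C) * y ^ 3 +
    w * (w + 12 * C * S - 40 * C ^ 2) * y ^ 2 + 4 * C * w * (w - 2 * C * S + 4 * C ^ 2) * y -
    4 * C ^ 2 * w ^ 2

theorem dv {l x y : ℤ} (h : l ∣ x) (e : y = x) : l ∣ y := e ▸ h

theorem zm {l x : ℤ} : l ∣ x ↔ (x : ZMod l.natAbs) = 0 := by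
  rw [ZMod.intCast_zmod_eq_zero_iff_dvd, Int.natAbs_dvd]

section odd
variable {l a b c : ℤ} (hl : Prime l) (hb : b ≠ 0) (hp : l ∣ a ^ 2 - c ^ 2)
  (hw : ¬ l ^ 2 ∣ (a ^ 2 - c ^ 2) * (b ^ 2 - c ^ 2))
include hl hp hw

theorem units : ¬ l ^ 2 ∣ a ^ 2 - c ^ 2 ∧ ¬ l ∣ b ^ 2 - c ^ 2 ∧ ¬ l ∣ 2 ∧ ¬ l ∣ c := by
  have h1 : ¬ l ^ 2 ∣ a ^ 2 - c ^ 2 := fun h => hw (h.mul_right _)
  have h2 : ¬ (l ∣ a - c ∧ l ∣ a + c) := fun h => h1 (by
    rw [sq l]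
    exact dv (mul_dvd_mul h.1 h.2) (by ring))
  have h3 : l ∣ a - c ∨ l ∣ a + c := hl.dvd_or_dvd (dv hp (by ring))
  have h4 : ¬ l ∣ 2 * c := fun h => h2 (h3.elim
    (fun h5 => ⟨h5, dv (h5.add h) (by ring)⟩) fun h5 => ⟨dv (h5.sub h) (by ring), h5⟩)
  exact ⟨h1, fun h => hw (by rw [sq l]; exact mul_dvd_mul hp h), fun h => h4 (h.mul_right _),
    fun h => h4 (h.mul_left _)⟩

include hb

theorem pair' {G0 H0 G1 H1 : ℤ} (hs : ¬ l ∣ b ^ 2 + c ^ 2)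
    (e0 : G0 * H0 = b ^ 6 * (a ^ 2 - c ^ 2) * (-16 * (b ^ 4 - a ^ 2 * c ^ 2)))
    (e1 : G1 * H0 + G0 * H1 = b ^ 4 * (a ^ 2 - c ^ 2) * (-32 * (2 * b ^ 4 - a ^ 2 * c ^ 2)))
    (hG : ¬ l ∣ G1) (hH : ¬ l ∣ H1) : False := by
  obtain ⟨h1, h2, h3, -⟩ := units hl hp hw
  refine pair hl hb hp h1 (fun h => ?_) e0 e1 hG hH
  rcases hl.dvd_or_dvd h with h | h
  · exact h3 (hl.dvd_of_dvd_pow (n := 4) (by simpa using h))
  · exact (hl.dvd_or_dvd (a := b ^ 2 - c ^ 2) (b := b ^ 2 + c ^ 2)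
      (dv (h.add (hp.mul_right (c ^ 2))) (by ring))).elim h2 hs

theorem root_dvd {y : ℤ}
    (h : qy (a ^ 2 + b ^ 2) ((a ^ 2 - c ^ 2) * (b ^ 2 - c ^ 2)) (c ^ 2) y = 0) : l ∣ y := by
  by_contra hy
  have : Fact l.natAbs.Prime := ⟨Int.prime_iff_natAbs_prime.1 hl⟩
  obtain ⟨S, hS⟩ : ∃ S, S = a ^ 2 + b ^ 2 := ⟨_, rfl⟩
  obtain ⟨w, hw'⟩ : ∃ w, w = (a ^ 2 - c ^ 2) * (b ^ 2 - c ^ 2) := ⟨_, rfl⟩
  obtain ⟨z, hz⟩ : ∃ z, z = b ^ 2 + c ^ 2 := ⟨_, rfl⟩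
  have w0 : (w : ZMod l.natAbs) = 0 := zm.1 (hw' ▸ hp.mul_right _)
  rw [← hS, ← hw', qy] at h
  have h0 := congrArg (Int.cast : ℤ → ZMod l.natAbs) h
  push_cast at h0
  rw [w0] at h0
  have h1 : (S : ZMod l.natAbs) = y := by
    have h2 : (y : ZMod l.natAbs) ^ 4 * (S - y) ^ 2 = 0 := by linear_combination h0
    exact sub_eq_zero.1 (pow_eq_zero_iff two_ne_zero |>.1
      ((mul_eq_zero.1 h2).resolve_left (pow_ne_zero _ (mt zm.2 hy))))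
  have h2 : (z : ZMod l.natAbs) = y := by
    have h3 := zm.1 hp
    rw [← h1, hz, hS]
    push_cast at h3 ⊢
    linear_combination -h3
  obtain ⟨k4, e4⟩ : ∃ k, k = y - 2 * S := ⟨_, rfl⟩
  obtain ⟨k3, e3⟩ : ∃ k, k = S ^ 2 - 14 * w + y * k4 := ⟨_, rfl⟩
  obtain ⟨k2, e2⟩ : ∃ k, k = -2 * w * (S - 18 * c ^ 2) + y * k3 := ⟨_, rfl⟩
  obtain ⟨k1, e1⟩ : ∃ k, k = w * (w + 12 * c ^ 2 * S - 40 * c ^ 4) + y * k2 := ⟨_, rfl⟩
  obtain ⟨k0, e0⟩ : ∃ k, k = 4 * c ^ 2 * w * (w - 2 * c ^ 2 * S + 4 * c ^ 4) + y * k1 := ⟨_, rfl⟩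
  refine pair' hl hb hp hw (G0 := z - y) (G1 := 1)
    (H0 := z ^ 5 + k4 * z ^ 4 + k3 * z ^ 3 + k2 * z ^ 2 + k1 * z + k0)
    (H1 := 5 * z ^ 4 + 4 * k4 * z ^ 3 + 3 * k3 * z ^ 2 + 2 * k2 * z + k1)
    (fun h3 => hy (zm.2 (h2 ▸ zm.1 (hz ▸ h3)))) ?_ ?_ hl.not_dvd_one fun h3 => hy ?_
  · subst e0 e1 e2 e3 e4 hz hw' hS
    linear_combination -h
  · subst e0 e1 e2 e3 e4 hz hw' hS
    ring
  · have h4 := zm.1 h3
    subst e1 e2 e3 e4
    push_cast at h4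
    rw [w0, h1, h2] at h4
    exact zm.2 (pow_eq_zero_iff (n := 4) (by norm_num) |>.1 (by linear_combination h4))

theorem quad_dvd {S w C g1 g0 h3 h2 h1 h0 : ℤ} (hS : S = a ^ 2 + b ^ 2)
    (hw' : w = (a ^ 2 - c ^ 2) * (b ^ 2 - c ^ 2)) (hC : C = c ^ 2) (e5 : g1 + h3 = -2 * S)
    (e4 : g0 + g1 * h3 + h2 = S ^ 2 - 14 * w)
    (e3 : g0 * h3 + g1 * h2 + h1 = -2 * w * (S - 18 * C))
    (e2 : g0 * h2 + g1 * h1 + h0 = w * (w + 12 * C * S - 40 * C ^ 2))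
    (e1 : g0 * h1 + g1 * h0 = 4 * C * w * (w - 2 * C * S + 4 * C ^ 2))
    (e0 : g0 * h0 = -4 * C ^ 2 * w ^ 2) : l ∣ h3 := by
  by_contra hy
  have : Fact l.natAbs.Prime := ⟨Int.prime_iff_natAbs_prime.1 hl⟩
  obtain ⟨u1, u2, u3, u4⟩ := units hl hp hw
  obtain ⟨z, hz⟩ : ∃ z, z = b ^ 2 + c ^ 2 := ⟨_, rfl⟩
  have w1 : l ∣ w := hw' ▸ hp.mul_right _
  have w0 : (w : ZMod l.natAbs) = 0 := zm.1 w1
  have hzS : (z : ZMod l.natAbs) = S := by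
    have h3 := zm.1 hp
    rw [hz, hS]
    push_cast at h3 ⊢
    linear_combination -h3
  have f5 := congrArg (Int.cast : ℤ → ZMod l.natAbs) e5
  have f4 := congrArg (Int.cast : ℤ → ZMod l.natAbs) e4
  have f3 := congrArg (Int.cast : ℤ → ZMod l.natAbs) e3
  have f2 := congrArg (Int.cast : ℤ → ZMod l.natAbs) e2
  have f1 := congrArg (Int.cast : ℤ → ZMod l.natAbs) e1
  have f0 := congrArg (Int.cast : ℤ → ZMod l.natAbs) e0
  push_cast at f5 f4 f3 f2 f1 f0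
  rw [w0] at f4 f3 f2 f1 f0
  have y0 : (h3 : ZMod l.natAbs) ≠ 0 := mt zm.2 hy
  have g00 : (g0 : ZMod l.natAbs) = 0 := by
    by_contra hg
    have k0 : (h0 : ZMod l.natAbs) = 0 := (mul_eq_zero.1 (by linear_combination f0)).resolve_left hg
    have k1 : (h1 : ZMod l.natAbs) = 0 :=
      (mul_eq_zero.1 (by linear_combination f1 - g1 * k0)).resolve_left hg
    have k2 : (h2 : ZMod l.natAbs) = 0 :=
      (mul_eq_zero.1 (by linear_combination f2 - g1 * k1 - k0)).resolve_left hg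
    exact y0 ((mul_eq_zero.1 (by linear_combination f3 - g1 * k2 - k1)).resolve_left hg)
  by_cases hg : (g1 : ZMod l.natAbs) = 0
  · have k0 : (h0 : ZMod l.natAbs) = 0 := by linear_combination f2 - h2 * g00 - h1 * hg
    have k1 : (h1 : ZMod l.natAbs) = 0 := by linear_combination f3 - h3 * g00 - h2 * hg
    have k2 : l ^ 2 ∣ 4 * C * w * (w - 2 * C * S + 4 * C ^ 2) := by
      rw [← e1, sq]
      exact (mul_dvd_mul (zm.2 g00) (zm.2 k1)).add (mul_dvd_mul (zm.2 hg) (zm.2 k0))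
    have k3 : ¬ l ∣ 4 * C * (w - 2 * C * S + 4 * C ^ 2) := fun h => by
      have h4 : l ∣ 2 ^ 3 * c ^ 4 * (S - 2 * C) :=
        dv ((w1.mul_left (4 * C)).sub h) (by rw [hC]; ring)
      refine (hl.dvd_or_dvd h4).elim (fun h5 => (hl.dvd_or_dvd h5).elim
        (fun h6 => u3 (hl.dvd_of_dvd_pow h6)) fun h6 => u4 (hl.dvd_of_dvd_pow h6)) fun h5 => ?_
      exact u2 (dv (h5.sub hp) (by rw [hS, hC]; ring))
    exact hw (hw' ▸ ((hl.irreducible.coprime_iff_not_dvd.2 k3).pow_left).dvd_of_dvd_mul_right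
      (dv k2 (by ring)))
  · have k0 : (h0 : ZMod l.natAbs) = 0 :=
      (mul_eq_zero.1 (by linear_combination f1 - h1 * g00)).resolve_left hg
    have k1 : (h1 : ZMod l.natAbs) = 0 :=
      (mul_eq_zero.1 (by linear_combination f2 - h2 * g00 - k0)).resolve_left hg
    have k2 : (h2 : ZMod l.natAbs) = 0 :=
      (mul_eq_zero.1 (by linear_combination f3 - h3 * g00 - k1)).resolve_left hg
    have k3 : (g1 : ZMod l.natAbs) = -S := by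
      have : ((g1 : ZMod l.natAbs) + S) ^ 2 = 0 := by
        linear_combination g1 * f5 - f4 + g00 + k2
      exact eq_neg_of_add_eq_zero_left (pow_eq_zero_iff two_ne_zero |>.1 this)
    have k4 : (h3 : ZMod l.natAbs) = -S := by linear_combination f5 - k3
    have k5 : (S : ZMod l.natAbs) ≠ 0 := fun h => hg (by rw [k3, h, neg_zero])
    refine pair' hl hb hp hw (G0 := z ^ 2 + g1 * z + g0) (G1 := 2 * z + g1)
      (H0 := z ^ 4 + h3 * z ^ 3 + h2 * z ^ 2 + h1 * z + h0)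
      (H1 := 4 * z ^ 3 + 3 * h3 * z ^ 2 + 2 * h2 * z + h1)
      (fun h => k5 (hzS ▸ zm.1 (hz ▸ h))) ?_ ?_ (fun h => k5 ?_) fun h => k5 ?_
    · subst hz hw' hS hC
      linear_combination (b ^ 2 + c ^ 2) ^ 5 * e5 + (b ^ 2 + c ^ 2) ^ 4 * e4 +
        (b ^ 2 + c ^ 2) ^ 3 * e3 + (b ^ 2 + c ^ 2) ^ 2 * e2 + (b ^ 2 + c ^ 2) * e1 + e0
    · subst hz hw' hS hC
      linear_combination 5 * (b ^ 2 + c ^ 2) ^ 4 * e5 + 4 * (b ^ 2 + c ^ 2) ^ 3 * e4 +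
        3 * (b ^ 2 + c ^ 2) ^ 2 * e3 + 2 * (b ^ 2 + c ^ 2) * e2 + e1
    · have h4 := zm.1 h
      push_cast at h4
      linear_combination h4 - 2 * hzS - k3
    · have h4 := zm.1 h
      push_cast at h4
      rw [hzS, k4, k2, k1] at h4
      exact pow_eq_zero_iff (n := 3) (by norm_num) |>.1 (by linear_combination h4)

end odd

end Pool.Agent.P.MP_50039c_nt.Sq
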