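import Pool.Agent.P.MP_50039c_nt.SqA

/-! The prime two. -/

set_option autoImplicit false

namespace Pool.Agent.P.MP_50039c_nt.Sq

theorem cop {x : ℤ} (hx : Odd x) (k : ℕ) : IsCoprime ((2 : ℤ) ^ k) x :=
  (Int.prime_two.irreducible.coprime_iff_not_dvd.2 (by obtain ⟨y, rfl⟩ := hx; omega)).pow_left

theorem succ_dvd_or_succ_dvd_of_succ_sum_dvd_mul' {x y : ℤ} (h : 2 ^ 5 ∣ x * y) :
    2 ^ 3 ∣ x ∨ 2 ^ 3 ∣ y := by
  by_contra hn
  push Not at hn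
  obtain ⟨i, u, hu, rfl⟩ := WfDvdMonoid.max_power_factor'
    (fun e : x = 0 => hn.1 (e ▸ dvd_zero _)) Int.prime_two.not_isUnit
  obtain ⟨j, v, hv, rfl⟩ := WfDvdMonoid.max_power_factor'
    (fun e : y = 0 => hn.2 (e ▸ dvd_zero _)) Int.prime_two.not_isUnit
  have h1 : 5 ≤ i + j := pow_le Int.prime_two (v := u * v) (dv h (by ring))
    fun h => (Int.prime_two.dvd_or_dvd h).elim hu hv
  rcases le_or_gt 3 i with h2 | h2
  · exact hn.1 ((pow_dvd_pow 2 h2).mul_right _)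
  · exact hn.2 ((pow_dvd_pow 2 (by omega)).mul_right _)

theorem odd_ne {x k : ℤ} (h : Odd x) (e : x = 2 * k) : False := by
  obtain ⟨y, hy⟩ := h
  omega

section trace
variable {S w C g0 h2 h1 h0 : ℤ} (e4 : g0 + h2 = S ^ 2 - 14 * w)
  (e3 : -2 * S * h2 + h1 = -2 * w * (S - 18 * C))
  (e2 : g0 * h2 - 2 * S * h1 + h0 = w * (w + 12 * C * S - 40 * C ^ 2))
  (e1 : g0 * h1 - 2 * S * h0 = 4 * C * w * (w - 2 * C * S + 4 * C ^ 2))
  (e0 : g0 * h0 = -4 * C ^ 2 * w ^ 2)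
include e4 e3 e2 e1 e0

theorem two_odd (hS : Odd S) (h4 : 4 ∣ w) (hw : w ≠ 0) : False := by
  rcases Int.even_or_odd g0 with hg | hg
  · obtain ⟨g, rfl⟩ := hg
    obtain ⟨v, rfl⟩ := h4
    obtain ⟨s, rfl⟩ := hS
    obtain ⟨k2, rfl⟩ : ∃ k, h2 = 2 * k + 1 := ⟨2 * s ^ 2 + 2 * s - 28 * v - g, by linarith⟩
    obtain ⟨k1, rfl⟩ : ∃ k, h1 = 2 * (2 * k + 1) :=
      ⟨2 * s * k2 + s + k2 - 2 * v * (2 * s + 1 - 18 * C), by linarith⟩
    have a1 : (2 : ℤ) ^ 3 ∣ (g + g) * (2 * k1 + 1) - (2 * s + 1) * h0 :=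
      ⟨C * v * (4 * v - 2 * C * (2 * s + 1) + 4 * C ^ 2), by linarith⟩
    have a2 : (2 : ℤ) ^ 3 ∣ g + g ∧ (2 : ℤ) ^ 3 ∣ h0 := by
      have a3 : (2 : ℤ) ^ 3 ∣ g + g ↔ (2 : ℤ) ^ 3 ∣ h0 :=
        ⟨fun h => (cop ⟨s, rfl⟩ 3).dvd_of_dvd_mul_left (dv ((h.mul_right (2 * k1 + 1)).sub a1) (by ring)),
          fun h => (cop ⟨k1, rfl⟩ 3).dvd_of_dvd_mul_right
            (dv (a1.add (h.mul_left (2 * s + 1))) (by ring))⟩
      by_contra hn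
      have n1 : ¬ (2 : ℤ) ^ 3 ∣ g + g := fun h => hn ⟨h, a3.1 h⟩
      have n2 : ¬ (2 : ℤ) ^ 3 ∣ h0 := fun h => hn ⟨a3.2 h, h⟩
      exact (succ_dvd_or_succ_dvd_of_succ_sum_dvd_mul' (x := g + g) (y := h0)
        ⟨-2 * C ^ 2 * v ^ 2, by linarith⟩).elim n1 n2
    obtain ⟨⟨x, hx⟩, y, rfl⟩ := a2
    rw [hx] at e2
    have : 2 * (x * (2 * k2 + 1) + y - 2 * s * k1 - s - k1 -
      2 * v * (v + 3 * C * (2 * s + 1) - 10 * C ^ 2)) = 1 := by linarith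
    omega
  · obtain ⟨k, u, hu, rfl⟩ := WfDvdMonoid.max_power_factor' hw Int.prime_two.not_isUnit
    obtain ⟨v, hv⟩ := h4
    have a0 : (2 : ℤ) ^ (k + 2) ∣ h0 := (cop hg _).dvd_of_dvd_mul_left
      ⟨-C ^ 2 * u * (2 ^ k * u), by rw [e0]; ring⟩
    have a1 : (2 : ℤ) ^ (k + 2) ∣ h1 := (cop hg _).dvd_of_dvd_mul_left
      (dv ((a0.mul_left (2 * S)).add (Dvd.intro (C * u * (2 ^ k * u - 2 * C * S + 4 * C ^ 2)) rfl))
        (by linear_combination e1))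
    have a2 : (2 : ℤ) ^ (k + 2) ∣ h2 := (cop hg _).dvd_of_dvd_mul_left
      (dv (((a1.mul_left (2 * S)).sub a0).add (Dvd.intro (u * (v + 3 * C * S - 10 * C ^ 2)) rfl))
        (by linear_combination e2 + 2 ^ k * u * hv))
    have a3 : (2 : ℤ) ^ (k + 2) ∣ 2 ^ (k + 1) * (u * (S - 18 * C)) :=
      dv ((a2.mul_left (2 * S)).sub a1) (by linear_combination e3)
    have := pow_le Int.prime_two a3 fun h => (Int.prime_two.dvd_or_dvd h).elim hu fun h => by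
      obtain ⟨s, rfl⟩ := hS
      omega
    omega

theorem two_all {s d : ℤ} (hS : S = 2 * s) (hs : s = C + 4 * d) (hC : C % 8 = 1) (h4 : 64 ∣ w)
    (hw : w ≠ 0) : False := by
  subst hS
  obtain ⟨k, u, hu, rfl⟩ := WfDvdMonoid.max_power_factor' hw Int.prime_two.not_isUnit
  obtain ⟨v, hv⟩ := h4
  obtain ⟨t, rfl⟩ : ∃ t, C = 8 * t + 1 := ⟨C / 8, by omega⟩
  obtain ⟨W, hW⟩ : ∃ W : ℤ, W = 2 ^ k := ⟨_, rfl⟩
  have hs1 : Odd s := ⟨4 * t + 2 * d, by omega⟩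
  have hc : ∀ x y, Odd x → ∀ j, W * 2 ^ j ∣ x * y → W * 2 ^ j ∣ y := fun x y hx j h => by
    rw [hW, ← pow_add] at h ⊢
    exact (cop hx _).dvd_of_dvd_mul_left h
  rw [← hW] at e4 e3 e2 e1 e0 hv hw
  have W0 : W ≠ 0 := left_ne_zero_of_mul hw
  -- the two eliminated equations
  have a1 : (g0 - 16 * s ^ 2) * h2 + h0 = W * 16 * (u * (4 * v + (8 * t + 1) * (6 * d - 8 * t - 1) -
      s * (4 * d - 8 * (8 * t + 1)))) := by
    subst hs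
    linear_combination e2 + 4 * (8 * t + 1 + 4 * d) * e3 + W * u * hv
  have a2 : 4 * s * (g0 * h2 - h0) = W * 16 * (u * (16 * (8 * t + 1) * v - 4 * (8 * t + 1) ^ 2 * d +
      g0 * (d - 2 * (8 * t + 1)))) := by
    subst hs
    linear_combination e1 - g0 * e3 + 4 * (8 * t + 1) * W * u * hv
  generalize hX : 4 * v + (8 * t + 1) * (6 * d - 8 * t - 1) - s * (4 * d - 8 * (8 * t + 1)) = X
    at a1
  have X1 : Odd X :=
    ⟨2 * v + (8 * t + 1) * (3 * d - 4 * t - 1) + 4 * t - s * (2 * d - 4 * (8 * t + 1)),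
      by rw [← hX]; ring⟩
  have u1 : Odd u := Int.not_even_iff_odd.1 fun h => hu h.two_dvd
  obtain ⟨z, hz⟩ : (2 : ℤ) ^ 8 ∣ g0 * h2 - h0 := (cop hs1 8).dvd_of_dvd_mul_left
    ⟨v * (16 * (8 * t + 1) * v - 4 * (8 * t + 1) ^ 2 * d + g0 * (d - 2 * (8 * t + 1))), by
      refine mul_left_cancel₀ (four_ne_zero (α := ℤ)) ?_
      linear_combination a2 + 16 * (16 * (8 * t + 1) * v - 4 * (8 * t + 1) ^ 2 * d +
        g0 * (d - 2 * (8 * t + 1))) * hv⟩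
  have b1 : (g0 - 8 * s ^ 2) * h2 = 128 * (4 * v * X + z) := by
    refine mul_left_cancel₀ (two_ne_zero (α := ℤ)) ?_
    linear_combination a1 + hz + 16 * X * hv
  have b2 : h2 = 4 * s ^ 2 - 896 * v - g0 := by linear_combination e4 - 14 * hv
  have s2 : Odd (s ^ 2) := hs1.pow
  obtain ⟨σ, hσ⟩ := id s2
  have hcase : (∃ y, g0 = 2 * y + 1) ∨ (∃ y, g0 = 2 * (2 * y + 1)) ∨ (∃ y, g0 = 8 * y) ∨
      ∃ y, g0 = 4 * (2 * y + 1) := by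
    have : g0 % 2 = 1 ∨ g0 % 4 = 2 ∨ g0 % 8 = 0 ∨ g0 % 8 = 4 := by omega
    rcases this with h | h | h | h
    · exact Or.inl ⟨g0 / 2, by omega⟩
    · exact Or.inr (Or.inl ⟨g0 / 4, by omega⟩)
    · exact Or.inr (Or.inr (Or.inl ⟨g0 / 8, by omega⟩))
    · exact Or.inr (Or.inr (Or.inr ⟨g0 / 8, by omega⟩))
  rcases hcase with ⟨y, rfl⟩ | ⟨y, rfl⟩ | ⟨y, rfl⟩ | ⟨y, rfl⟩
  · exact odd_ne (k := 64 * (4 * v * X + z)) (Odd.mul (a := 2 * y + 1 - 8 * s ^ 2) (b := h2)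
      ⟨y - 4 * s ^ 2, by ring⟩ ⟨2 * s ^ 2 - 448 * v - y - 1, by rw [b2]; ring⟩) (by linarith)
  · refine odd_ne (k := 16 * (4 * v * X + z)) (Odd.mul (a := 2 * y + 1 - 4 * s ^ 2)
      (b := 2 * s ^ 2 - 448 * v - (2 * y + 1)) ⟨y - 2 * s ^ 2, by ring⟩
      ⟨s ^ 2 - 224 * v - y - 1, by ring⟩) ?_
    rw [b2] at b1
    linarith
  · have o1 : Odd (s ^ 2 - 224 * v - 2 * y) := ⟨σ - 112 * v - y, by rw [hσ]; ring⟩
    rcases Int.even_or_odd' y with ⟨x, rfl | rfl⟩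
    · refine odd_ne (k := 2 * (4 * v * X + z)) (Odd.mul (a := 2 * x - s ^ 2)
        ⟨x - σ - 1, by rw [hσ]; ring⟩ o1) ?_
      rw [b2] at b1
      linarith
    · refine odd_ne (k := 4 * (2 * x + 1) * z - 32 * (8 * t + 1) ^ 2 * v ^ 2)
        (Odd.mul (Odd.pow (n := 2) (⟨x, rfl⟩ : Odd (2 * x + 1))) o1) ?_
      rw [hv] at e0
      rw [b2] at hz
      refine mul_left_cancel₀ (show (256 : ℤ) ≠ 0 by norm_num) ?_
      linear_combination e0 + 8 * (2 * x + 1) * hz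
  · have o1 : Odd (2 * y + 1) := ⟨y, rfl⟩
    have o2 : Odd (2 * y + 1 - 4 * s ^ 2) := ⟨y - 2 * s ^ 2, by ring⟩
    obtain ⟨z0, rfl⟩ := hc _ h0 o1 6 ⟨-(8 * t + 1) ^ 2 * u * v, by
      refine mul_left_cancel₀ (four_ne_zero (α := ℤ)) ?_
      linear_combination e0 - 4 * (8 * t + 1) ^ 2 * W * u * hv⟩
    obtain ⟨z2, rfl⟩ := hc _ h2 o2 2 ⟨u * X - 4 * z0, by
      refine mul_left_cancel₀ (four_ne_zero (α := ℤ)) ?_
      linear_combination a1⟩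
    have W1 : 16 * W ≠ 0 := mul_ne_zero (by norm_num) W0
    have c1 : (2 * y + 1 - 4 * s ^ 2) * z2 = u * X - 4 * z0 :=
      mul_left_cancel₀ W1 (by linear_combination a1)
    have c2 : Odd z2 := by
      have : Odd ((2 * y + 1 - 4 * s ^ 2) * z2) :=
        c1 ▸ (u1.mul X1).sub_even ⟨2 * z0, by ring⟩
      exact (Int.odd_mul.1 this).2
    refine odd_ne (k := u * (2 * (8 * t + 1) * v + d * (y - 32 * t ^ 2 - 8 * t) -
      (2 * y + 1) * (8 * t + 1))) (hs1.mul ((o1.mul c2).sub_even (b := 4 * z0) ⟨2 * z0, by ring⟩)) ?_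
    refine mul_left_cancel₀ (mul_ne_zero (four_ne_zero (α := ℤ)) W1) ?_
    linear_combination a2

end trace

end Pool.Agent.P.MP_50039c_nt.Sq
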