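import Pool.Agent.P.MP_50039c_nt.SqB

/-! The prime two: the remaining parity classes, and factors of odd degree. -/

set_option autoImplicit false

namespace Pool.Agent.P.MP_50039c_nt.Sq

theorem sq16_odd {a : ℤ} (h : Odd a) : (a : ZMod 16) ^ 2 = 1 ∨ (a : ZMod 16) ^ 2 = 9 := by
  obtain ⟨x, rfl⟩ := h
  push_cast
  generalize (x : ZMod 16) = y
  revert y
  decide

theorem sq16_even {a : ℤ} (h : Even a) : (a : ZMod 16) ^ 2 = 0 ∨ (a : ZMod 16) ^ 2 = 4 := by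
  obtain ⟨x, rfl⟩ := h
  push_cast
  generalize (x : ZMod 16) = y
  revert y
  decide

theorem fin16 {A B C S w g0 h2 h1 h0 : ZMod 16}
    (h : ((A = 1 ∨ A = 9) ∧ (B = 1 ∨ B = 9) ∧ (C = 0 ∨ C = 4)) ∨
      ((A = 0 ∨ A = 4) ∧ (B = 0 ∨ B = 4) ∧ (C = 1 ∨ C = 9)))
    (hS : S = A + B) (hw : w = (A - C) * (B - C)) (e4 : g0 + h2 = S ^ 2 - 14 * w)
    (e3 : -2 * S * h2 + h1 = -2 * w * (S - 18 * C))
    (e2 : g0 * h2 - 2 * S * h1 + h0 = w * (w + 12 * C * S - 40 * C ^ 2))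
    (e1 : g0 * h1 - 2 * S * h0 = 4 * C * w * (w - 2 * C * S + 4 * C ^ 2))
    (e0 : g0 * h0 = -4 * C ^ 2 * w ^ 2) : False := by
  obtain rfl : h2 = S ^ 2 - 14 * w - g0 := by linear_combination e4
  obtain rfl : h1 = -2 * w * (S - 18 * C) + 2 * S * (S ^ 2 - 14 * w - g0) := by
    linear_combination e3
  obtain rfl : h0 = w * (w + 12 * C * S - 40 * C ^ 2) - g0 * (S ^ 2 - 14 * w - g0) +
      2 * S * (-2 * w * (S - 18 * C) + 2 * S * (S ^ 2 - 14 * w - g0)) := by linear_combination e2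
  subst hS hw
  clear e4 e3 e2
  revert g0
  rcases h with ⟨rfl | rfl, rfl | rfl, rfl | rfl⟩ | ⟨rfl | rfl, rfl | rfl, rfl | rfl⟩ <;> decide

theorem trace_ne {a b c S w C g0 h2 h1 h0 : ℤ} (hodd : Odd a ∨ Odd b ∨ Odd c)
    (hS : S = a ^ 2 + b ^ 2) (hw : w = (a ^ 2 - c ^ 2) * (b ^ 2 - c ^ 2)) (hC : C = c ^ 2)
    (w0 : w ≠ 0) (e4 : g0 + h2 = S ^ 2 - 14 * w)
    (e3 : -2 * S * h2 + h1 = -2 * w * (S - 18 * C))
    (e2 : g0 * h2 - 2 * S * h1 + h0 = w * (w + 12 * C * S - 40 * C ^ 2))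
    (e1 : g0 * h1 - 2 * S * h0 = 4 * C * w * (w - 2 * C * S + 4 * C ^ 2))
    (e0 : g0 * h0 = -4 * C ^ 2 * w ^ 2) : False := by
  have fin : (Odd a ∧ Odd b ∧ Even c) ∨ (Even a ∧ Even b ∧ Odd c) → False := fun h =>
    fin16 (A := (a : ZMod 16) ^ 2) (B := (b : ZMod 16) ^ 2) (C := (C : ZMod 16)) (S := S) (w := w)
      (g0 := g0) (h2 := h2) (h1 := h1) (h0 := h0)
      (h.imp (fun h => ⟨sq16_odd h.1, sq16_odd h.2.1, by simpa [hC] using sq16_even h.2.2⟩)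
        fun h => ⟨sq16_even h.1, sq16_even h.2.1, by simpa [hC] using sq16_odd h.2.2⟩)
      (by rw [hS]; push_cast; rfl) (by rw [hw, hC]; push_cast; rfl)
      (by exact_mod_cast congrArg (Int.cast : ℤ → ZMod 16) e4)
      (by exact_mod_cast congrArg (Int.cast : ℤ → ZMod 16) e3)
      (by exact_mod_cast congrArg (Int.cast : ℤ → ZMod 16) e2)
      (by exact_mod_cast congrArg (Int.cast : ℤ → ZMod 16) e1)
      (by exact_mod_cast congrArg (Int.cast : ℤ → ZMod 16) e0)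
  have mix : ∀ x y : ℤ, Odd x → Even y → 4 ∣ (x ^ 2 - c ^ 2) * (y ^ 2 - c ^ 2) := by
    rintro _ _ ⟨x, rfl⟩ ⟨y, rfl⟩
    rcases Int.even_or_odd' c with ⟨z, rfl | rfl⟩
    · exact Dvd.dvd.mul_left ⟨y ^ 2 - z ^ 2, by ring⟩ _
    · exact Dvd.dvd.mul_right ⟨x ^ 2 + x - z ^ 2 - z, by ring⟩ _
  rcases Int.even_or_odd a with ha | ha <;> rcases Int.even_or_odd b with hb | hb
  · refine fin (Or.inr ⟨ha, hb, ?_⟩)
    rcases hodd with h | h | h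
    · exact absurd ha (Int.not_even_iff_odd.2 h)
    · exact absurd hb (Int.not_even_iff_odd.2 h)
    · exact h
  · exact two_odd e4 e3 e2 e1 e0 (hS ▸ (ha.pow_of_ne_zero two_ne_zero).add_odd hb.pow)
      (hw ▸ dv (mix b a hb ha) (mul_comm _ _)) w0
  · exact two_odd e4 e3 e2 e1 e0 (hS ▸ ha.pow.add_even (hb.pow_of_ne_zero two_ne_zero))
      (hw ▸ mix a b ha hb) w0
  rcases Int.even_or_odd c with hc | hc
  · exact fin (Or.inl ⟨ha, hb, hc⟩)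
  obtain ⟨x, hx⟩ := Int.eight_dvd_sq_sub_one_of_odd ha
  obtain ⟨y, hy⟩ := Int.eight_dvd_sq_sub_one_of_odd hb
  obtain ⟨z, hz⟩ := Int.eight_dvd_sq_sub_one_of_odd hc
  exact two_all e4 e3 e2 e1 e0 (s := C + 4 * (x + y - 2 * z)) (by rw [hS, hC]; linarith) rfl
    (by omega) ⟨(x - z) * (y - z), by
      rw [hw, show a ^ 2 - c ^ 2 = 8 * (x - z) by linarith,
        show b ^ 2 - c ^ 2 = 8 * (y - z) by linarith]; ring⟩ w0

theorem hensel (e1 e2 e3 r : ℤ) (h0 : 2 ∣ r ^ 3 + e1 * r ^ 2 + e2 * r + e3)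
    (h1 : Odd (r + e2)) (k : ℕ) : ∃ y : ℤ, 2 ^ (k + 1) ∣ y ^ 3 + e1 * y ^ 2 + e2 * y + e3 ∧
      Odd (y + e2) := by
  induction k with
  | zero => exact ⟨r, by simpa using h0, h1⟩
  | succ k ih =>
    obtain ⟨y, ⟨t, ht⟩, u, hu⟩ := ih
    obtain ⟨v, hv⟩ := Int.even_mul_succ_self y
    refine ⟨y + 2 ^ (k + 1) * t, ⟨t * (1 + u + 3 * v - 2 * y + e1 * y) +
      2 ^ k * t ^ 2 * (3 * y + e1 + 2 ^ (k + 1) * t), ?_⟩, u + 2 ^ k * t, ?_⟩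
    · linear_combination ht + 2 ^ (k + 1) * t * hu + 3 * 2 ^ (k + 1) * t * hv
    · linear_combination hu

theorem desc1 {u v : ℤ} (hu : Odd u) (hv : Odd v) (k : ℕ) : ∀ x z : ℤ,
    2 ^ (2 * k) ∣ 2 * u * x ^ 2 - v * z ^ 2 → 2 ^ k ∣ x ∧ 2 ^ k ∣ z := by
  induction k with
  | zero => simp
  | succ k ih =>
    rintro x z ⟨t, ht⟩
    rcases Int.even_or_odd z with ⟨z, rfl⟩ | hz
    · rcases Int.even_or_odd x with ⟨x, rfl⟩ | hx
      · obtain ⟨h1, h2⟩ := ih x z ⟨t, mul_left_cancel₀ (four_ne_zero (α := ℤ))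
          (by linear_combination ht)⟩
        exact ⟨dv (mul_dvd_mul_right h1 2) (by ring), dv (mul_dvd_mul_right h2 2) (by ring)⟩
      · exact (odd_ne (hu.mul (hx.pow (n := 2))) (k := v * z ^ 2 + 2 ^ (2 * k) * t)
          (mul_left_cancel₀ (two_ne_zero (α := ℤ)) (by linear_combination ht))).elim
    · exact (odd_ne (hv.mul (hz.pow (n := 2))) (k := u * x ^ 2 - 2 * 2 ^ (2 * k) * t)
        (by linear_combination -ht)).elim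

theorem desc2 {s t : ℤ} (hs : Odd s) (ht : Odd t) (k : ℕ) : ∀ x y z : ℤ,
    2 ^ (2 * k) ∣ s ^ 2 * y ^ 2 + t ^ 2 * x ^ 2 - 4 * z ^ 2 * x ^ 2 * y ^ 2 →
      2 ^ k ∣ x ∧ 2 ^ k ∣ y := by
  induction k with
  | zero => simp
  | succ k ih =>
    rintro x y z ⟨r, hr⟩
    have key : Even x ∧ Even y := by
      obtain ⟨s, rfl⟩ := hs
      obtain ⟨t, rfl⟩ := ht
      have h4 := congrArg (Int.cast : ℤ → ZMod 4) hr
      rcases Int.even_or_odd' x with ⟨x, rfl | rfl⟩ <;> rcases Int.even_or_odd' y with ⟨y, rfl | rfl⟩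
      · exact ⟨even_two_mul _, even_two_mul _⟩
      all_goals
        exfalso
        rw [show 2 * (k + 1) = 2 * k + 2 by ring, pow_add] at h4
        push_cast at h4
        generalize (2 : ZMod 4) ^ (2 * k) = p, (x : ZMod 4) = x, (y : ZMod 4) = y, (z : ZMod 4) = z,
          (r : ZMod 4) = r, (s : ZMod 4) = s, (t : ZMod 4) = t at h4
        have e : (4 : ZMod 4) = 0 := rfl
        first
          | exact absurd (show (1 : ZMod 4) = 0 by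
              linear_combination (exp := 1) h4 + (p * r - (s ^ 2 + s) * (2 * y + 1) ^ 2 - y ^ 2 - y -
                (2 * t + 1) ^ 2 * x ^ 2 + z ^ 2 * (2 * x) ^ 2 * (2 * y + 1) ^ 2) * e) (by decide)
          | exact absurd (show (1 : ZMod 4) = 0 by
              linear_combination (exp := 1) h4 + (p * r - (t ^ 2 + t) * (2 * x + 1) ^ 2 - x ^ 2 - x -
                (2 * s + 1) ^ 2 * y ^ 2 + z ^ 2 * (2 * y) ^ 2 * (2 * x + 1) ^ 2) * e) (by decide)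
          | exact absurd (show (2 : ZMod 4) = 0 by
              linear_combination (exp := 1) h4 + (p * r - (t ^ 2 + t) * (2 * x + 1) ^ 2 - x ^ 2 - x -
                (s ^ 2 + s) * (2 * y + 1) ^ 2 - y ^ 2 - y +
                z ^ 2 * (2 * y + 1) ^ 2 * (2 * x + 1) ^ 2) * e) (by decide)
    obtain ⟨⟨x, rfl⟩, y, rfl⟩ := key
    obtain ⟨h1, h2⟩ := ih x y (2 * z) ⟨r, mul_left_cancel₀ (four_ne_zero (α := ℤ))
      (by linear_combination hr)⟩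
    exact ⟨dv (mul_dvd_mul_right h1 2) (by ring), dv (mul_dvd_mul_right h2 2) (by ring)⟩

theorem zero_of_pow {x : ℤ} (h : 2 ^ x.natAbs ∣ x) : x = 0 := by
  refine Int.eq_zero_of_abs_lt_dvd h ?_
  rw [Int.abs_eq_natAbs]
  exact_mod_cast Nat.lt_two_pow_self

/-- no root in the two-adic integers -/
theorem no_root {a b c : ℤ} (ha : Odd a) (hb : Odd b) (hc : Even c) (hab : a ^ 2 ≠ b ^ 2)
    (c0 : c ≠ 0) (h : ∀ k : ℕ, ∃ y : ℤ,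
      2 ^ (k + 1) ∣ qy (a ^ 2 + b ^ 2) ((a ^ 2 - c ^ 2) * (b ^ 2 - c ^ 2)) (c ^ 2) y) : False := by
  obtain ⟨k, k1, k2⟩ : ∃ k : ℕ, (2 * c ^ 2).natAbs ≤ k ∧ (a ^ 2 - b ^ 2).natAbs ≤ k :=
    ⟨_, le_max_left _ _, le_max_right _ _⟩
  obtain ⟨y, hy⟩ := h (2 * k + 5)
  obtain ⟨T, rfl⟩ : ∃ T, y = T + c ^ 2 := ⟨y - c ^ 2, by ring⟩
  have e : qy (a ^ 2 + b ^ 2) ((a ^ 2 - c ^ 2) * (b ^ 2 - c ^ 2)) (c ^ 2) (T + c ^ 2) =
      (T - a ^ 2) ^ 2 * (T + b ^ 2) ^ 2 * (T + c ^ 2) ^ 2 +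
      (T - b ^ 2) ^ 2 * (T + a ^ 2) ^ 2 * (T + c ^ 2) ^ 2 -
      (T - c ^ 2) ^ 2 * (T + a ^ 2) ^ 2 * (T + b ^ 2) ^ 2 := by
    rw [qy]
    ring
  rw [e] at hy
  obtain ⟨x, hx⟩ := Int.eight_dvd_sq_sub_one_of_odd ha
  obtain ⟨z, hz⟩ := Int.eight_dvd_sq_sub_one_of_odd hb
  obtain ⟨d, rfl⟩ := hc
  rw [eq_add_of_sub_eq hx, eq_add_of_sub_eq hz] at hy hab k2
  have hcase : (∃ t, T = 2 * t) ∨ (∃ t, T = 4 * t + 1) ∨ ∃ t, T = 4 * t + 3 := by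
    have : T % 2 = 0 ∨ T % 4 = 1 ∨ T % 4 = 3 := by omega
    rcases this with h | h | h
    · exact Or.inl ⟨T / 2, by omega⟩
    · exact Or.inr (Or.inl ⟨T / 4, by omega⟩)
    · exact Or.inr (Or.inr ⟨T / 4, by omega⟩)
  rcases hcase with ⟨t, rfl⟩ | ⟨t, rfl⟩ | ⟨t, rfl⟩
  · obtain ⟨m, hm⟩ : Odd ((2 * t - (8 * x + 1)) * (2 * t + (8 * z + 1))) :=
      Odd.mul ⟨t - 4 * x - 1, by ring⟩ ⟨t + 4 * z, by ring⟩
    obtain ⟨n, hn⟩ : Odd ((2 * t - (8 * z + 1)) * (2 * t + (8 * x + 1))) :=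
      Odd.mul ⟨t - 4 * z - 1, by ring⟩ ⟨t + 4 * x, by ring⟩
    obtain ⟨h1, h2⟩ := desc1 (u := 2 * (m ^ 2 + m + n ^ 2 + n) + 1)
      (v := ((2 * t + (8 * x + 1)) * (2 * t + (8 * z + 1))) ^ 2) ⟨_, rfl⟩
      (Odd.pow (Odd.mul ⟨t + 4 * x, by ring⟩ ⟨t + 4 * z, by ring⟩)) k (2 * t + (d + d) ^ 2)
      (2 * t - (d + d) ^ 2) ((pow_dvd_pow 2 (by omega)).trans (dv hy (by
        linear_combination -(2 * t + (d + d) ^ 2) ^ 2 *
          (((2 * t - (8 * x + 1)) * (2 * t + (8 * z + 1)) + 2 * m + 1) * hm +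
          ((2 * t - (8 * z + 1)) * (2 * t + (8 * x + 1)) + 2 * n + 1) * hn))))
    have h3 := zero_of_pow ((pow_dvd_pow 2 k1).trans (dv (h1.sub h2) (by ring)))
    exact c0 (pow_eq_zero_iff two_ne_zero |>.1 (by linarith))
  · obtain ⟨r, hr⟩ := (pow_dvd_pow 2 (show 5 ≤ 2 * k + 5 + 1 by omega)).trans hy
    refine odd_ne (Odd.pow (n := 2) (Odd.mul (Odd.mul (a := 4 * t + 1 - (d + d) ^ 2)
      (b := 2 * t + 4 * x + 1) ⟨2 * t - 2 * d ^ 2, by ring⟩ ⟨t + 2 * x, by ring⟩)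
      (⟨t + 2 * z, by ring⟩ : Odd (2 * t + 4 * z + 1))))
      (k := 2 * (4 * t + 1 + (d + d) ^ 2) ^ 2 * ((t - 2 * x) ^ 2 * (2 * t + 4 * z + 1) ^ 2 +
        (t - 2 * z) ^ 2 * (2 * t + 4 * x + 1) ^ 2) - r) ?_
    refine mul_left_cancel₀ (show (16 : ℤ) ≠ 0 by norm_num) ?_
    linear_combination -hr
  · have o : Odd (4 * t + 3 + (d + d) ^ 2) := ⟨2 * t + 1 + 2 * d ^ 2, by ring⟩
    obtain ⟨r, hr⟩ := hy
    obtain ⟨h1, h2⟩ := desc2 (s := (4 * t + 3 + (d + d) ^ 2) * (2 * t + 1 - 4 * x))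
      (t := (4 * t + 3 + (d + d) ^ 2) * (2 * t + 1 - 4 * z)) (o.mul ⟨t - 2 * x, by ring⟩)
      (o.mul ⟨t - 2 * z, by ring⟩) k (t + 2 * x + 1) (t + 2 * z + 1) (4 * t + 3 - (d + d) ^ 2)
      ⟨r, mul_left_cancel₀ (show (64 : ℤ) ≠ 0 by norm_num) (by linear_combination hr)⟩
    have h3 := zero_of_pow ((pow_dvd_pow 2 k2).trans (dv ((h1.sub h2).mul_left 4) (by ring)))
    exact hab (by linarith)

theorem no_cubic {a b c S w C e1 e2 e3 f1 f2 f3 : ℤ} (ha : Odd a) (hb : Odd b) (hc : Even c)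
    (hab : a ^ 2 ≠ b ^ 2) (c0 : c ≠ 0) (hS : S = a ^ 2 + b ^ 2)
    (hw : w = (a ^ 2 - c ^ 2) * (b ^ 2 - c ^ 2)) (hC : C = c ^ 2) (q5 : e1 + f1 = -2 * S)
    (q4 : e2 + e1 * f1 + f2 = S ^ 2 - 14 * w)
    (q3 : e3 + e2 * f1 + e1 * f2 + f3 = -2 * w * (S - 18 * C))
    (q2 : e3 * f1 + e2 * f2 + e1 * f3 = w * (w + 12 * C * S - 40 * C ^ 2))
    (q1 : e3 * f2 + e2 * f3 = 4 * C * w * (w - 2 * C * S + 4 * C ^ 2))
    (q0 : e3 * f3 = -4 * C ^ 2 * w ^ 2) : False := by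
  have e : ∀ y, qy S w C y = (y ^ 3 + e1 * y ^ 2 + e2 * y + e3) *
      (y ^ 3 + f1 * y ^ 2 + f2 * y + f3) := fun y => by
    rw [qy]
    linear_combination -y ^ 5 * q5 - y ^ 4 * q4 - y ^ 3 * q3 - y ^ 2 * q2 - y * q1 - q0
  have key : ∃ r : ℤ, (2 ∣ r ^ 3 + e1 * r ^ 2 + e2 * r + e3 ∧ Odd (r + e2)) ∨
      (2 ∣ r ^ 3 + f1 * r ^ 2 + f2 * r + f3 ∧ Odd (r + f2)) := by
    have o1 : Odd w := hw ▸ (ha.pow.sub_even (hc.pow_of_ne_zero two_ne_zero)).mul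
      (hb.pow.sub_even (hc.pow_of_ne_zero two_ne_zero))
    have o2 : Even S := hS ▸ ha.pow.add_odd hb.pow
    obtain ⟨u, rfl⟩ := o1
    obtain ⟨s, rfl⟩ := o2
    clear e hS hw hC
    rcases Int.even_or_odd' e1 with ⟨e1, rfl | rfl⟩ <;>
    rcases Int.even_or_odd' e2 with ⟨e2, rfl | rfl⟩ <;>
    rcases Int.even_or_odd' e3 with ⟨e3, rfl | rfl⟩ <;>
    rcases Int.even_or_odd' f1 with ⟨f1, rfl | rfl⟩ <;>
    rcases Int.even_or_odd' f2 with ⟨f2, rfl | rfl⟩ <;>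
    rcases Int.even_or_odd' f3 with ⟨f3, rfl | rfl⟩ <;>
    first
      | (exfalso; ring_nf at q5 q4 q3 q2 q1 q0; omega)
      | exact ⟨0, Or.inl ⟨by omega, Int.odd_iff.2 (by omega)⟩⟩
      | exact ⟨0, Or.inr ⟨by omega, Int.odd_iff.2 (by omega)⟩⟩
      | exact ⟨1, Or.inl ⟨by omega, Int.odd_iff.2 (by omega)⟩⟩
      | exact ⟨1, Or.inr ⟨by omega, Int.odd_iff.2 (by omega)⟩⟩
  obtain ⟨r, hr⟩ := key
  refine no_root ha hb hc hab c0 fun k => ?_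
  rw [← hS, ← hw, ← hC]
  rcases hr with hr | hr
  · obtain ⟨y, hy, -⟩ := hensel _ _ _ r hr.1 hr.2 k
    exact ⟨y, e y ▸ hy.mul_right _⟩
  · obtain ⟨y, hy, -⟩ := hensel _ _ _ r hr.1 hr.2 k
    exact ⟨y, e y ▸ hy.mul_left _⟩

end Pool.Agent.P.MP_50039c_nt.Sq
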