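import Pool.Agent.P.MP_50039c_nt.SqC
import Pool.Agent.P.MP_50039c_nt.Main

/-! Size of the roots and the classification of the factorisations. -/

set_option autoImplicit false

namespace Pool.Agent.P.MP_50039c_nt.Sq

open Polynomial

theorem root_lt {A B D n : ℝ} (hA : 0 ≤ A ∧ A ≤ n) (hB : 0 ≤ B ∧ B ≤ n) (hD : 0 ≤ D ∧ D ≤ n)
    (hn : 0 < n) {θ : ℂ} (h : qy (A + B : ℂ) ((A - D) * (B - D)) D (θ + D) = 0) : ‖θ‖ < 8 * n := by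
  by_contra ht
  have m : ∀ i j k d : ℕ, d = i + j + k →
      0 ≤ A ^ i * B ^ j * D ^ k ∧ A ^ i * B ^ j * D ^ k ≤ n ^ d :=
    fun i j k d hd => ⟨by have := hA.1; have := hB.1; have := hD.1; positivity, by
      rw [hd, pow_add, pow_add]
      exact mul_le_mul (mul_le_mul (pow_le_pow_left₀ hA.1 hA.2 i) (pow_le_pow_left₀ hB.1 hB.2 j)
        (pow_nonneg hB.1 j) (by positivity)) (pow_le_pow_left₀ hD.1 hD.2 k) (pow_nonneg hD.1 k)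
        (by positivity)⟩
  have b : ∀ (c K : ℝ) (i j : ℕ), |c| ≤ K * n ^ j → 0 ≤ K →
      ‖(c : ℂ) * θ ^ i‖ ≤ K / 8 ^ j * ‖θ‖ ^ (j + i) := fun c K i j h1 h2 => by
    rw [norm_mul, norm_pow, Complex.norm_real, Real.norm_eq_abs, pow_add, ← mul_assoc]
    refine mul_le_mul_of_nonneg_right (h1.trans ?_) (by positivity)
    rw [div_mul_eq_mul_div, mul_div_assoc, ← div_pow]
    exact mul_le_mul_of_nonneg_left (pow_le_pow_left₀ hn.le (by linarith) j) h2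
  have b5 := b (6 * D - 2 * A - 2 * B) 6 5 1 (abs_le.2 ⟨by linarith, by linarith⟩) (by norm_num)
  have b4 := b (A ^ 2 + B ^ 2 + D ^ 2 + 4 * A * D + 4 * B * D - 12 * A * B) 12 4 2 (abs_le.2
    ⟨by linarith [m 2 0 0 2 rfl, m 0 2 0 2 rfl, m 0 0 2 2 rfl, m 1 0 1 2 rfl, m 0 1 1 2 rfl, m 1 1 0 2 rfl],
      by linarith [m 2 0 0 2 rfl, m 0 2 0 2 rfl, m 0 0 2 2 rfl, m 1 0 1 2 rfl, m 0 1 1 2 rfl, m 1 1 0 2 rfl]⟩) (by norm_num)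
  have b3 := b (6 * A ^ 2 * D + 6 * B ^ 2 * D - 8 * A * B * D - 2 * A * D ^ 2 - 2 * B * D ^ 2 -
    2 * A ^ 2 * B - 2 * A * B ^ 2) 16 3 3 (abs_le.2
    ⟨by linarith [m 2 0 1 3 rfl, m 0 2 1 3 rfl, m 1 1 1 3 rfl, m 1 0 2 3 rfl, m 0 1 2 3 rfl, m 2 1 0 3 rfl, m 1 2 0 3 rfl],
      by linarith [m 2 0 1 3 rfl, m 0 2 1 3 rfl, m 1 1 1 3 rfl, m 1 0 2 3 rfl, m 0 1 2 3 rfl, m 2 1 0 3 rfl, m 1 2 0 3 rfl]⟩) (by norm_num)
  have b2 := b (4 * A * B ^ 2 * D + 4 * A ^ 2 * B * D - 12 * A * B * D ^ 2 + A ^ 2 * D ^ 2 +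
    B ^ 2 * D ^ 2 + A ^ 2 * B ^ 2) 12 2 4 (abs_le.2
    ⟨by linarith [m 1 2 1 4 rfl, m 2 1 1 4 rfl, m 1 1 2 4 rfl, m 2 0 2 4 rfl, m 0 2 2 4 rfl, m 2 2 0 4 rfl],
      by linarith [m 1 2 1 4 rfl, m 2 1 1 4 rfl, m 1 1 2 4 rfl, m 2 0 2 4 rfl, m 0 2 2 4 rfl, m 2 2 0 4 rfl]⟩) (by norm_num)
  have b1 := b (6 * A ^ 2 * B ^ 2 * D - 2 * A ^ 2 * B * D ^ 2 - 2 * A * B ^ 2 * D ^ 2) 6 1 5
    (abs_le.2 ⟨by linarith [m 2 2 1 5 rfl, m 2 1 2 5 rfl, m 1 2 2 5 rfl], by linarith [m 2 2 1 5 rfl, m 2 1 2 5 rfl, m 1 2 2 5 rfl]⟩)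
    (by norm_num)
  have b0 := b (A ^ 2 * B ^ 2 * D ^ 2) 1 0 6
    (abs_le.2 ⟨by linarith [m 2 2 2 6 rfl], by linarith [m 2 2 2 6 rfl]⟩) (by norm_num)
  have key : ∀ x5 x4 x3 x2 x1 x0 : ℂ, -θ ^ 6 = x5 + x4 + x3 + x2 + x1 + x0 →
      ‖θ‖ ^ 6 ≤ ‖x5‖ + ‖x4‖ + ‖x3‖ + ‖x2‖ + ‖x1‖ + ‖x0‖ := fun x5 x4 x3 x2 x1 x0 e => by
    rw [← norm_pow, ← norm_neg, e]
    linarith [norm_add_le (x5 + x4 + x3 + x2 + x1) x0, norm_add_le (x5 + x4 + x3 + x2) x1,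
      norm_add_le (x5 + x4 + x3) x2, norm_add_le (x5 + x4) x3, norm_add_le x5 x4]
  have h6 : 0 < ‖θ‖ ^ 6 := pow_pos (by linarith) 6
  refine absurd (le_trans (key _ _ _ _ _ _ ?_) (add_le_add (add_le_add (add_le_add (add_le_add
    (add_le_add b5 b4) b3) b2) b1) b0)) (by norm_num; linarith)
  rw [qy] at h
  push_cast
  linear_combination -h

theorem ext6 {c5 c4 c3 c2 c1 c0 : ℤ}
    (h : ∀ y : ℤ, c5 * y ^ 5 + c4 * y ^ 4 + c3 * y ^ 3 + c2 * y ^ 2 + c1 * y + c0 = 0) :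
    c5 = 0 ∧ c4 = 0 ∧ c3 = 0 ∧ c2 = 0 ∧ c1 = 0 ∧ c0 = 0 := by
  have h0 := h 0
  have h1 := h 1
  have h2 := h (-1)
  have h3 := h 2
  have h4 := h (-2)
  have h5 := h 3
  omega

theorem ev {g : ℤ[X]} (hg : g.Monic) {n : ℕ} (hn : g.natDegree = n) (r : ℤ) :
    ∃ u : ℕ → ℤ, ∀ y, g.eval (y + r) = ∑ i ∈ Finset.range n, u i * y ^ i + y ^ n := by
  refine ⟨(taylor r g).coeff, fun y => ?_⟩
  have h1 : (taylor r g).coeff n = 1 := by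
    rw [← hn, ← natDegree_taylor g r]
    exact (leadingCoeff_taylor r g).trans hg
  rw [← taylor_eval, eval_eq_sum_range, natDegree_taylor, hn, Finset.sum_range_succ, h1, one_mul]

theorem sex_eval {R : Type} [CommRing R] (a b c y : R) : (sex a b c).eval (y + -c ^ 2) =
    qy (a ^ 2 + b ^ 2) ((a ^ 2 - c ^ 2) * (b ^ 2 - c ^ 2)) (c ^ 2) y := by
  simp only [sex, qy, eval_add, eval_mul, eval_pow, eval_X, eval_C]
  ring

theorem sex_cases {a b c m k N : ℤ} (ha : 0 < a ∧ a ≤ N) (hb : 0 < b ∧ b ≤ N) (hc : 0 < c ∧ c ≤ N)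
    (hodd : Odd a ∨ Odd b ∨ Odd c) (hw : (a ^ 2 - c ^ 2) * (b ^ 2 - c ^ 2) = m * k)
    (hm : Squarefree m) (hk : IsCoprime m k) (hN : 20 * N ^ 2 < m) :
    (a ^ 2 - c ^ 2) * (b ^ 2 - c ^ 2) ≠ 0 ∧ (Irreducible (sex a b c) ∨
      (¬ (Odd a ∧ Odd b ∧ Even c) ∧ ∃ g h : ℤ[X], g.Monic ∧ h.Monic ∧ g.natDegree = 3 ∧
        h.natDegree = 3 ∧ sex a b c = g * h)) := by
  have N0 : 0 < N := ha.1.trans_le ha.2
  have hl : ∀ l : ℤ, Prime l → l ∣ m → ¬ l ^ 2 ∣ (a ^ 2 - c ^ 2) * (b ^ 2 - c ^ 2) ∧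
      (l ∣ a ^ 2 - c ^ 2 ∨ l ∣ b ^ 2 - c ^ 2) := fun l h1 h2 =>
    ⟨fun h3 => h1.not_isUnit (hm l (by
      rw [← sq]
      exact ((hk.of_isCoprime_of_dvd_left h2).pow_left).dvd_of_dvd_mul_right (hw ▸ h3))),
      h1.dvd_or_dvd (hw ▸ h2.mul_right k)⟩
  obtain ⟨l0, p0, d0⟩ := Int.exists_prime_and_dvd (n := m) (by have := pow_pos N0 2; omega)
  have w0 : (a ^ 2 - c ^ 2) * (b ^ 2 - c ^ 2) ≠ 0 := fun h => (hl l0 p0 d0).1 (h ▸ dvd_zero _)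
  have hab : a ^ 2 ≠ b ^ 2 := fun h => (hl l0 p0 d0).1 (by
    have h1 := (hl l0 p0 d0).2
    rw [← h, or_self] at h1
    rw [← h, sq l0]
    exact mul_dvd_mul h1 h1)
  have hz : ∀ x : ℤ, |x| ≤ 20 * N ^ 2 → (∀ l : ℤ, Prime l → l ∣ m → l ∣ x) → x = 0 :=
    fun x h1 h2 => Int.eq_zero_of_abs_lt_dvd (dvd_of_primes hm h2) (h1.trans_lt hN)
  have sq' : ∀ x : ℤ, 0 < x ∧ x ≤ N → 0 ≤ (x : ℝ) ^ 2 ∧ (x : ℝ) ^ 2 ≤ (N : ℝ) ^ 2 := fun x hx =>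
    ⟨sq_nonneg _, by exact_mod_cast pow_le_pow_left₀ hx.1.le hx.2 2⟩
  have rt : ∀ y : ℂ, qy ((a : ℂ) ^ 2 + b ^ 2) ((a ^ 2 - c ^ 2) * (b ^ 2 - c ^ 2)) (c ^ 2) y = 0 →
      ‖y - c ^ 2‖ < 8 * (N : ℝ) ^ 2 := fun y hy =>
    root_lt (sq' a ha) (sq' b hb) (sq' c hc) (by positivity) (by push_cast; rwa [sub_add_cancel])
  have hM : (sex a b c).Monic := by unfold sex; monicity!
  have hD : (sex a b c).natDegree = 6 := by unfold sex; compute_degree!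
  refine ⟨w0, or_iff_not_imp_left.2 fun hi => ?_⟩
  rw [hM.irreducible_iff_lt_natDegree_lt (fun h => by simp [h] at hD)] at hi
  push Not at hi
  obtain ⟨g, g1, g2, h, e⟩ := hi
  have h1 : h.Monic := g1.of_mul_monic_left (e ▸ hM)
  have h2 : g.natDegree + h.natDegree = 6 := by rw [← g1.natDegree_mul h1, ← e, hD]
  have ee : ∀ y, qy (a ^ 2 + b ^ 2) ((a ^ 2 - c ^ 2) * (b ^ 2 - c ^ 2)) (c ^ 2) y =
      g.eval (y + -c ^ 2) * h.eval (y + -c ^ 2) := fun y => by rw [← sex_eval, e, eval_mul]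
  rw [hD, Finset.mem_Ioc] at g2
  have g3 : g.natDegree = 1 ∨ g.natDegree = 2 ∨ g.natDegree = 3 := by omega
  rcases g3 with g3 | g3 | g3
  · exfalso
    obtain ⟨u, hu⟩ := ev g1 g3 (-c ^ 2)
    have r0 := ee (-u 0)
    rw [hu] at r0
    simp only [Finset.sum_range_succ, Finset.sum_range_zero] at r0
    rw [show 0 + u 0 * (-u 0) ^ 0 + (-u 0) ^ 1 = 0 by ring, zero_mul] at r0
    generalize -u 0 = y at r0
    have r1 := rt y (by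
      have := congrArg (Int.cast : ℤ → ℂ) r0
      simp only [qy] at this ⊢
      exact_mod_cast this)
    have r2 : |y - c ^ 2| < 8 * N ^ 2 := by
      have : ((|y - c ^ 2| : ℤ) : ℝ) < 8 * (N : ℝ) ^ 2 := by
        rw [Int.cast_abs, ← Complex.norm_intCast]
        exact_mod_cast r1
      exact_mod_cast this
    have r3 := pow_le_pow_left₀ hc.1.le hc.2 2
    obtain rfl := hz y (abs_le.2 ⟨by linarith [(abs_lt.1 r2).1, sq_nonneg c, sq_nonneg N],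
      by linarith [(abs_lt.1 r2).2, sq_nonneg N]⟩) fun l l1 l2 => (hl l l1 l2).2.elim
      (fun l3 => root_dvd l1 hb.1.ne' l3 (hl l l1 l2).1 r0) fun l3 =>
      root_dvd l1 ha.1.ne' l3 (mul_comm (a ^ 2 - c ^ 2) _ ▸ (hl l l1 l2).1)
        (by rwa [add_comm, mul_comm])
    refine mul_ne_zero (pow_ne_zero 4 hc.1.ne') (pow_ne_zero 2 w0) ?_
    rw [qy] at r0
    linarith
  · exfalso
    obtain ⟨u, hu⟩ := ev g1 g3 (-c ^ 2)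
    obtain ⟨v, hv⟩ := ev h1 (show h.natDegree = 4 by omega) (-c ^ 2)
    simp only [hu, hv, Finset.sum_range_succ, Finset.sum_range_zero, qy] at ee
    obtain ⟨S, hS⟩ : ∃ S, S = a ^ 2 + b ^ 2 := ⟨_, rfl⟩
    obtain ⟨w, hw'⟩ : ∃ w, w = (a ^ 2 - c ^ 2) * (b ^ 2 - c ^ 2) := ⟨_, rfl⟩
    obtain ⟨D, hD'⟩ : ∃ D, D = c ^ 2 := ⟨_, rfl⟩
    rw [← hS, ← hw', ← hD'] at ee
    obtain ⟨e5, e4, e3, e2, e1, e0⟩ := ext6 (c5 := u 1 + v 3 - -2 * S)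
      (c4 := u 0 + u 1 * v 3 + v 2 - (S ^ 2 - 14 * w))
      (c3 := u 0 * v 3 + u 1 * v 2 + v 1 - -2 * w * (S - 18 * D))
      (c2 := u 0 * v 2 + u 1 * v 1 + v 0 - w * (w + 12 * D * S - 40 * D ^ 2))
      (c1 := u 0 * v 1 + u 1 * v 0 - 4 * D * w * (w - 2 * D * S + 4 * D ^ 2))
      (c0 := u 0 * v 0 - -4 * D ^ 2 * w ^ 2) fun y => by linear_combination -ee y
    rw [sub_eq_zero] at e5 e4 e3 e2 e1 e0
    obtain ⟨r, hr⟩ := IsAlgClosed.exists_pow_nat_eq ((u 1 : ℂ) ^ 2 - 4 * u 0) two_pos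
    have rt' : ∀ y : ℂ, y ^ 2 + u 1 * y + u 0 = 0 → ‖y - c ^ 2‖ < 8 * (N : ℝ) ^ 2 := fun y hy => by
      have f5 := congrArg (Int.cast : ℤ → ℂ) e5
      have f4 := congrArg (Int.cast : ℤ → ℂ) e4
      have f3 := congrArg (Int.cast : ℤ → ℂ) e3
      have f2 := congrArg (Int.cast : ℤ → ℂ) e2
      have f1 := congrArg (Int.cast : ℤ → ℂ) e1
      have f0 := congrArg (Int.cast : ℤ → ℂ) e0
      refine rt y ?_
      rw [show ((a : ℂ) ^ 2 - c ^ 2) * (b ^ 2 - c ^ 2) = w by rw [hw']; push_cast; rfl,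
        show (a : ℂ) ^ 2 + b ^ 2 = S by rw [hS]; push_cast; rfl,
        show (c : ℂ) ^ 2 = D by rw [hD']; push_cast; rfl, qy]
      push_cast at f5 f4 f3 f2 f1 f0
      linear_combination (y ^ 4 + v 3 * y ^ 3 + v 2 * y ^ 2 + v 1 * y + v 0) * hy - y ^ 5 * f5 -
        y ^ 4 * f4 - y ^ 3 * f3 - y ^ 2 * f2 - y * f1 - f0
    have r1 := rt' ((-u 1 + r) / 2) (by linear_combination hr / 4)
    have r2 := rt' ((-u 1 - r) / 2) (by linear_combination hr / 4)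
    have r3 : |u 1 + 2 * c ^ 2| < 16 * N ^ 2 := by
      have : ((|u 1 + 2 * c ^ 2| : ℤ) : ℝ) < 16 * (N : ℝ) ^ 2 := by
        rw [Int.cast_abs, ← Complex.norm_intCast, ← norm_neg]
        have h3 := norm_add_le ((-u 1 + r) / 2 - (c : ℂ) ^ 2) ((-u 1 - r) / 2 - c ^ 2)
        rw [show -((u 1 + 2 * c ^ 2 : ℤ) : ℂ) = (-u 1 + r) / 2 - (c : ℂ) ^ 2 +
          ((-u 1 - r) / 2 - c ^ 2) by push_cast; ring]
        linarith
      exact_mod_cast this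
    have r4 := pow_le_pow_left₀ ha.1.le ha.2 2
    have r5 := pow_le_pow_left₀ hb.1.le hb.2 2
    have r6 := pow_le_pow_left₀ hc.1.le hc.2 2
    have v3 := hz (v 3) (abs_le.2
      ⟨by linarith [(abs_lt.1 r3).2, sq_nonneg c], by
        linarith [(abs_lt.1 r3).1, sq_nonneg a, sq_nonneg b, sq_nonneg N]⟩)
      fun l l1 l2 => (hl l l1 l2).2.elim
      (fun l3 => quad_dvd l1 hb.1.ne' l3 (hl l l1 l2).1 hS hw' hD' e5 e4 e3 e2 e1 e0) fun l3 =>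
      quad_dvd l1 ha.1.ne' l3 (mul_comm (a ^ 2 - c ^ 2) _ ▸ (hl l l1 l2).1)
        (hS.trans (add_comm _ _)) (hw'.trans (mul_comm _ _)) hD' e5 e4 e3 e2 e1 e0
    have u1 : u 1 = -2 * S := by linarith
    rw [v3, u1] at e4 e3
    rw [u1] at e2 e1
    exact trace_ne (g0 := u 0) (h2 := v 2) (h1 := v 1) (h0 := v 0) hodd hS hw' hD' (hw' ▸ w0)
      (by linarith) (by linarith) (by linarith) (by linarith) e0
  · refine ⟨fun ho => ?_, g, h, g1, h1, g3, by omega, e⟩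
    obtain ⟨u, hu⟩ := ev g1 g3 (-c ^ 2)
    obtain ⟨v, hv⟩ := ev h1 (show h.natDegree = 3 by omega) (-c ^ 2)
    simp only [hu, hv, Finset.sum_range_succ, Finset.sum_range_zero, qy] at ee
    obtain ⟨S, hS⟩ : ∃ S, S = a ^ 2 + b ^ 2 := ⟨_, rfl⟩
    obtain ⟨w, hw'⟩ : ∃ w, w = (a ^ 2 - c ^ 2) * (b ^ 2 - c ^ 2) := ⟨_, rfl⟩
    obtain ⟨D, hD'⟩ : ∃ D, D = c ^ 2 := ⟨_, rfl⟩
    rw [← hS, ← hw', ← hD'] at ee
    obtain ⟨e5, e4, e3, e2, e1, e0⟩ := ext6 (c5 := u 2 + v 2 - -2 * S)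
      (c4 := u 1 + u 2 * v 2 + v 1 - (S ^ 2 - 14 * w))
      (c3 := u 0 + u 1 * v 2 + u 2 * v 1 + v 0 - -2 * w * (S - 18 * D))
      (c2 := u 0 * v 2 + u 1 * v 1 + u 2 * v 0 - w * (w + 12 * D * S - 40 * D ^ 2))
      (c1 := u 0 * v 1 + u 1 * v 0 - 4 * D * w * (w - 2 * D * S + 4 * D ^ 2))
      (c0 := u 0 * v 0 - -4 * D ^ 2 * w ^ 2) fun y => by linear_combination -ee y
    rw [sub_eq_zero] at e5 e4 e3 e2 e1 e0
    exact no_cubic ho.1 ho.2.1 ho.2.2 hab hc.1.ne' hS hw' hD' e5 e4 e3 e2 e1 e0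

theorem three_of_sex {a b c : ℤ} (ha : a ≠ 0) (hb : b ≠ 0) (hc : c ≠ 0)
    (w0 : (a ^ 2 - c ^ 2) * (b ^ 2 - c ^ 2) ≠ 0) (hi : Irreducible (sex a b c)) :
    N2f636d21.CuboidThreeFor a b c := by
  have hM : (sex a b c).Monic := by unfold sex; monicity!
  rw [Monic.irreducible_iff_irreducible_map_fraction_map (K := ℚ) hM] at hi
  have e : (sex a b c).map (algebraMap ℤ ℚ) = sex (a : ℚ) b c := by
    simp only [sex, Polynomial.map_add, Polynomial.map_mul, Polynomial.map_pow, map_X, map_C]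
    simp
  have e2 : ∀ T : ℝ, aeval T (sex (a : ℚ) b c) = (sex (a : ℝ) b c).eval T := fun T => by
    simp [sex]
  have a0 : (a : ℝ) ≠ 0 := by exact_mod_cast ha
  have b0 : (b : ℝ) ≠ 0 := by exact_mod_cast hb
  have c0 : (c : ℝ) ≠ 0 := by exact_mod_cast hc
  have w1 : ((a : ℝ) ^ 2 - c ^ 2) * (b ^ 2 - c ^ 2) ≠ 0 := by exact_mod_cast w0
  have h1 : (sex (a : ℝ) b c).eval (-(c : ℝ) ^ 2) < 0 := by
    have := sex_eval (a : ℝ) b c 0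
    rw [zero_add] at this
    rw [this, qy]
    have : 0 < ((c : ℝ) ^ 2) ^ 2 * (((a : ℝ) ^ 2 - c ^ 2) * (b ^ 2 - c ^ 2)) ^ 2 := by positivity
    linarith
  have h2 : 0 < (sex (a : ℝ) b c).eval 0 := by
    simp [sex]
    positivity
  obtain ⟨T, hT, h3⟩ := intermediate_value_Ioo (f := fun T => (sex (a : ℝ) b c).eval T)
    (neg_nonpos.2 (sq_nonneg (c : ℝ))) (Polynomial.continuous _).continuousOn ⟨h1, h2⟩
  exact three_of_irr a b c (irr_comp_sq (sex_monic _ _ _) (e ▸ hi) hT.2 ((e2 T).trans h3))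

end Pool.Agent.P.MP_50039c_nt.Sq
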