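import Mathlib

/-! The sextic has no two cubic factors when the squarefree part is large. -/

set_option autoImplicit false

namespace Pool.Agent.P.MP_50039c_nt.Sq3

/-- a plane quartic -/
def F {R : Type} [CommRing R] (u v w : R) : R :=
  2080000 * w ^ 4 + 962560 * v * w ^ 3 - 123168 * v ^ 2 * w ^ 2 + 3392 * v ^ 3 * w - 27 * v ^ 4
    - 185600 * u * w ^ 3 + 111168 * u * v * w ^ 2 - 8048 * u * v ^ 2 * w + 108 * u * v ^ 3
    - 40960 * u ^ 2 * w ^ 2 + 5024 * u ^ 2 * v * w - 144 * u ^ 2 * v ^ 2 - 1024 * u ^ 3 * w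
    + 64 * u ^ 3 * v

theorem F_mul {R : Type} [CommRing R] (t u v w : R) :
    F (t * u) (t * v) (t * w) = t ^ 4 * F u v w := by
  simp only [F]; ring

theorem F_cast {R : Type} [CommRing R] (u v w : ℤ) : ((F u v w : ℤ) : R) = F (u : R) v w := by
  simp [F]

theorem loc {k : Type} [Field k] {S C w a1 a2 a3 b3 : k} (hS : S ≠ 0) (hw : w ≠ 0)
    (hD : 2 * C * (S - 2 * C) ≠ 0) (h5 : S ^ 2 * a3 = -8 * w * C ^ 2 * (S - 2 * C))
    (h6 : a3 * b3 = -4 * C ^ 2 * w ^ 2)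
    (h4 : -2 * S * a3 + S ^ 2 * a2 = w * (12 * C * S - 40 * C ^ 2))
    (h3 : a3 + b3 + a1 * S ^ 2 - 2 * S * a2 = -2 * w * (S - 18 * C)) :
    F (-2 * S * a1) (-4 * a2) w = 0 := by
  have h0 : 2 * C ≠ 0 := left_ne_zero_of_mul hD
  have h1 : S - 2 * C ≠ 0 := right_ne_zero_of_mul hD
  have h7 : 2 * (S - 2 * C) * b3 = w * S ^ 2 :=
    mul_left_cancel₀ (mul_ne_zero (pow_ne_zero 2 h0) hw) (by linear_combination b3 * h5 - S ^ 2 * h6)
  have h8 : S ^ 3 * a2 = w * (12 * C * S ^ 2 - 56 * C ^ 2 * S + 32 * C ^ 3) := by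
    linear_combination S * h4 + 2 * h5
  have e1 : S ^ 3 * (S - 2 * C) * (-2 * S * a1) =
      w * (5 * S ^ 4 - 128 * S ^ 3 * C + 448 * S ^ 2 * C ^ 2 - 512 * S * C ^ 3 + 192 * C ^ 4) := by
    linear_combination (-2 * S ^ 2 * (S - 2 * C)) * h3 + 2 * (S - 2 * C) * h5 + S ^ 2 * h7 -
      4 * (S - 2 * C) * h8
  have e2 : S ^ 3 * (S - 2 * C) * (-4 * a2) =
      w * (-16 * C * (3 * S - 2 * C) * (S - 4 * C) * (S - 2 * C)) := by
    linear_combination (-4 * (S - 2 * C)) * h8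
  have e3 := F_mul (S ^ 3 * (S - 2 * C)) (-2 * S * a1) (-4 * a2) w
  rw [e1, e2, mul_comm _ w, F_mul] at e3
  refine (mul_eq_zero.1 (e3.symm.trans ?_)).resolve_left
    (pow_ne_zero 4 (mul_ne_zero (pow_ne_zero 3 hS) h1))
  simp only [F]
  ring

/-- the coefficient equations of a factorisation into two cubics -/
structure Eqs (S C w e1 e2 e3 f1 f2 f3 : ℤ) : Prop where
  q1 : e1 + f1 = -2 * S
  q2 : e2 + f2 + e1 * f1 = S ^ 2 - 14 * w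
  q3 : e3 + f3 + e1 * f2 + e2 * f1 = -2 * w * (S - 18 * C)
  q4 : e1 * f3 + e3 * f1 + e2 * f2 = w * (12 * C * S - 40 * C ^ 2) + w ^ 2
  q5 : e2 * f3 + e3 * f2 = -8 * w * C ^ 2 * (S - 2 * C) + 4 * C * w ^ 2
  q6 : e3 * f3 = -4 * C ^ 2 * w ^ 2

variable {S C w e1 e2 e3 f1 f2 f3 : ℤ}

theorem Eqs.symm (h : Eqs S C w e1 e2 e3 f1 f2 f3) : Eqs S C w f1 f2 f3 e1 e2 e3 :=
  ⟨by linear_combination h.q1, by linear_combination h.q2, by linear_combination h.q3,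
    by linear_combination h.q4, by linear_combination h.q5, by linear_combination h.q6⟩

theorem Eqs.last (h : Eqs S C w e1 e2 e3 f1 f2 f3) {l : ℤ} (hl : Prime l) (hw : l ∣ w) :
    l ∣ f3 := by
  by_contra h0
  obtain ⟨w, rfl⟩ := hw
  have h3 : l ∣ e3 := (hl.dvd_or_dvd (h.q6 ▸ ⟨-4 * C ^ 2 * l * w ^ 2, by ring⟩)).resolve_right h0
  obtain ⟨a3, rfl⟩ := h3
  have h2 : l ∣ e2 := (hl.dvd_or_dvd (b := f3) ⟨-8 * w * C ^ 2 * (S - 2 * C) + 4 * C * l * w ^ 2 -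
    a3 * f2, by linear_combination h.q5⟩).resolve_right h0
  obtain ⟨a2, rfl⟩ := h2
  have h1 : l ∣ e1 := (hl.dvd_or_dvd (b := f3) ⟨w * (12 * C * S - 40 * C ^ 2) + l * w ^ 2 -
    a3 * f1 - a2 * f2, by linear_combination h.q4⟩).resolve_right h0
  obtain ⟨a1, rfl⟩ := h1
  exact h0 ⟨-2 * w * (S - 18 * C) - a3 - a1 * f2 - a2 * f1, by linear_combination h.q3⟩

theorem Eqs.one (h : Eqs S C w e1 e2 e3 f1 f2 f3) {l : ℕ} (hl : l.Prime) (hw : (l : ℤ) ∣ w)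
    (hw2 : ¬ (l : ℤ) ^ 2 ∣ w) (hD : ¬ (l : ℤ) ∣ 2 * C * (S - 2 * C)) (h2 : (l : ℤ) ∣ e2) :
    (l : ℤ) ^ 5 ∣ F (e1 * f1) (e1 ^ 2 - 4 * e2) w ∧
      (l : ℤ) ^ 5 ∣ e1 * F (e1 * f1) (f1 ^ 2 - 4 * f2) w := by
  have hp : Prime (l : ℤ) := Nat.prime_iff_prime_int.1 hl
  have := Fact.mk hl
  obtain ⟨b3, rfl⟩ := h.last hp hw
  obtain ⟨a3, rfl⟩ := h.symm.last hp hw
  obtain ⟨w, rfl⟩ := hw
  obtain ⟨a2, rfl⟩ := h2
  have z : ∀ x : ℤ, (x : ZMod l) = 0 ↔ (l : ℤ) ∣ x := fun x => ZMod.intCast_zmod_eq_zero_iff_dvd x l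
  have w0 : (w : ZMod l) ≠ 0 := fun e => hw2 (sq (l : ℤ) ▸ mul_dvd_mul_left _ ((z w).1 e))
  have D0 : (2 * C * (S - 2 * C) : ZMod l) ≠ 0 := fun e => hD ((z _).1 (by push_cast; exact e))
  have c : ∀ {x y : ℤ}, l * x = l * y → (x : ZMod l) = y := fun e => by
    rw [mul_left_cancel₀ hp.ne_zero e]
  have p5 := c (x := l * a2 * b3 + a3 * f2)
    (y := -8 * w * C ^ 2 * (S - 2 * C) + 4 * C * l * w ^ 2) (by linear_combination h.q5)
  have p6 := c (x := a3 * b3) (y := -4 * C ^ 2 * w ^ 2)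
    (mul_left_cancel₀ hp.ne_zero (by linear_combination h.q6))
  push_cast at p5 p6
  rw [ZMod.natCast_self] at p5
  have f0 : (f2 : ZMod l) ≠ 0 := fun e => by
    rw [e] at p5
    refine mul_ne_zero (mul_ne_zero w0 D0) (pow_ne_zero 2 (left_ne_zero_of_mul D0)) ?_
    linear_combination C * p5
  obtain ⟨a1, rfl⟩ : (l : ℤ) ∣ e1 := (hp.dvd_or_dvd (b := f2) ⟨-2 * w * (S - 18 * C) - a3 - b3 -
    a2 * f1, by linear_combination h.q3⟩).resolve_right fun e => f0 ((z _).2 e)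
  have p1 := congrArg (Int.cast : ℤ → ZMod l) h.q1
  have p2 := congrArg (Int.cast : ℤ → ZMod l) h.q2
  have p3 := c (x := a3 + b3 + a1 * f2 + a2 * f1) (y := -2 * w * (S - 18 * C))
    (by linear_combination h.q3)
  have p4 := c (x := l * a1 * b3 + a3 * f1 + a2 * f2)
    (y := w * (12 * C * S - 40 * C ^ 2) + l * w ^ 2) (by linear_combination h.q4)
  push_cast at p1 p2 p3 p4
  rw [ZMod.natCast_self] at p1 p2 p4
  simp only [zero_mul, zero_add, mul_zero, sub_zero, add_zero] at p1 p2 p4 p5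
  rw [p2] at f0 p3 p4 p5
  rw [p1] at p3 p4
  have key := loc (a1 := (a1 : ZMod l)) (a2 := a2) (fun e => f0 (by rw [e]; ring)) w0 D0
    (by linear_combination p5) p6 (by linear_combination p4) (by linear_combination p3)
  constructor
  · rw [show l * a1 * f1 = l * (a1 * f1) by ring,
      show (l * a1) ^ 2 - 4 * (l * a2) = l * (l * a1 ^ 2 - 4 * a2) by ring, F_mul, pow_succ _ 4]
    refine mul_dvd_mul_left _ ((z _).1 ?_)
    rw [F_cast, ← key]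
    push_cast
    rw [ZMod.natCast_self, p1]
    congr 1 <;> ring
  · rw [show l * a1 * f1 = l * (a1 * f1) by ring, show f1 ^ 2 - 4 * f2 =
      l * (2 * (a1 * f1) + 56 * w - (l * a1 ^ 2 - 4 * a2)) by
        linear_combination (l * a1 + f1 - 2 * S) * h.q1 - 4 * h.q2, F_mul]
    generalize F (a1 * f1) _ w = x
    exact ⟨a1 * x, by ring⟩

theorem Eqs.both (h : Eqs S C w e1 e2 e3 f1 f2 f3) {l : ℕ} (hl : l.Prime) (hw : (l : ℤ) ∣ w)
    (hw2 : ¬ (l : ℤ) ^ 2 ∣ w) (hD : ¬ (l : ℤ) ∣ 2 * C * (S - 2 * C)) :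
    (l : ℤ) ^ 5 ∣ f1 * F (e1 * f1) (e1 ^ 2 - 4 * e2) w := by
  have hp : Prime (l : ℤ) := Nat.prime_iff_prime_int.1 hl
  obtain ⟨b3, h1⟩ := h.last hp hw
  obtain ⟨a3, h2⟩ := h.symm.last hp hw
  obtain ⟨w', h3⟩ := id hw
  rcases hp.dvd_or_dvd (a := e2) (b := f2) ⟨w' * (12 * C * S - 40 * C ^ 2) + w' * w - e1 * b3 -
    a3 * f1, by linear_combination h.q4 - e1 * h1 - f1 * h2 +
      (12 * C * S - 40 * C ^ 2 + w) * h3⟩ with h4 | h4
  · exact (h.one hl hw hw2 hD h4).1.mul_left _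
  · exact mul_comm f1 e1 ▸ (h.symm.one hl hw hw2 hD h4).2

theorem mod29 : ∀ u v w : ZMod 29, F u v w = 0 → (u = 0 ∨ F u (2 * u + 56 * w - v) w = 0) →
    u = 0 ∧ v = 0 ∧ w = 0 := by
  decide +kernel

theorem descent (n : ℕ) : ∀ u v w : ℤ, w.natAbs = n → F u v w = 0 →
    (u = 0 ∨ F u (2 * u + 56 * w - v) w = 0) → w = 0 := by
  induction n using Nat.strong_induction_on with
  | h n ih =>
    intro u v w hn h1 h2
    obtain ⟨a, b, c⟩ := mod29 u v w (by rw [← F_cast, h1]; rfl) (h2.imp (fun e => by rw [e]; rfl)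
      fun e => by simpa [F_cast] using congrArg (Int.cast : ℤ → ZMod 29) e)
    obtain ⟨u, rfl⟩ := (ZMod.intCast_zmod_eq_zero_iff_dvd u 29).1 a
    obtain ⟨v, rfl⟩ := (ZMod.intCast_zmod_eq_zero_iff_dvd v 29).1 b
    obtain ⟨w, rfl⟩ := (ZMod.intCast_zmod_eq_zero_iff_dvd w 29).1 c
    by_contra h0
    rw [F_mul] at h1
    refine h0 (by
      rw [ih w.natAbs (by omega) u v w rfl (by simpa using h1) (h2.imp (by omega) fun e => ?_)]
      · rfl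
      · rw [show 2 * ((29 : ℕ) * u) + 56 * ((29 : ℕ) * w) - (29 : ℕ) * v =
          (29 : ℕ) * (2 * u + 56 * w - v) by ring, F_mul] at e
        simpa using e)

theorem F_le {u v w t : ℤ} (hu : |u| ≤ 729 * t) (hv : |v| ≤ 729 * t) (hw : |w| ≤ t) :
    |F u v w| ≤ 2 * 10 ^ 14 * t ^ 4 := by
  have t0 : 0 ≤ t := (abs_nonneg w).trans hw
  have key : ∀ i j k : ℕ, |u ^ i * v ^ j * w ^ k| ≤ 729 ^ (i + j) * t ^ (i + j + k) := by
    intro i j k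
    rw [abs_mul, abs_mul, abs_pow, abs_pow, abs_pow]
    calc _ ≤ (729 * t) ^ i * (729 * t) ^ j * t ^ k := by gcongr
      _ = _ := by ring
  have a1 := abs_le.1 (key 0 0 4)
  have a2 := abs_le.1 (key 0 1 3)
  have a3 := abs_le.1 (key 0 2 2)
  have a4 := abs_le.1 (key 0 3 1)
  have a5 := abs_le.1 (key 0 4 0)
  have a6 := abs_le.1 (key 1 0 3)
  have a7 := abs_le.1 (key 1 1 2)
  have a8 := abs_le.1 (key 1 2 1)
  have a9 := abs_le.1 (key 1 3 0)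
  have a10 := abs_le.1 (key 2 0 2)
  have a11 := abs_le.1 (key 2 1 1)
  have a12 := abs_le.1 (key 2 2 0)
  have a13 := abs_le.1 (key 3 0 1)
  have a14 := abs_le.1 (key 3 1 0)
  have t4 : 0 ≤ t ^ 4 := by positivity
  norm_num at a1 a2 a3 a4 a5 a6 a7 a8 a9 a10 a11 a12 a13 a14
  rw [abs_le, F]
  constructor <;> linarith [a1.1, a1.2, a2.1, a2.2, a3.1, a3.2, a4.1, a4.2, a5.1, a5.2, a6.1, a6.2,
    a7.1, a7.2, a8.1, a8.2, a9.1, a9.2, a10.1, a10.2, a11.1, a11.2, a12.1, a12.2, a13.1, a13.2,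
    a14.1, a14.2]

theorem Eqs.zero (h : Eqs S C w e1 e2 e3 f1 f2 f3) {m : ℕ} {n : ℤ} (hm : Squarefree m)
    (hl : ∀ l : ℕ, l.Prime → l ∣ m → (l : ℤ) ∣ w ∧ ¬ (l : ℤ) ^ 2 ∣ w ∧
      ¬ (l : ℤ) ∣ 2 * C * (S - 2 * C))
    (b1 : |e1| ≤ 27 * n) (b2 : |f1| ≤ 27 * n) (b3 : |e1 ^ 2 - 4 * e2| ≤ 729 * n ^ 2)
    (b4 : |w| ≤ n ^ 2) (hn : 10 ^ 16 * n ^ 9 < m ^ 5) :
    f1 * F (e1 * f1) (e1 ^ 2 - 4 * e2) w = 0 := by
  have n0 : 0 ≤ n := by linarith [abs_nonneg e1]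
  have h1 : (m : ℤ) ^ 5 ∣ f1 * F (e1 * f1) (e1 ^ 2 - 4 * e2) w := by
    rw [← Nat.prod_primeFactors_of_squarefree hm, Nat.cast_prod, ← Finset.prod_pow]
    refine Finset.prod_dvd_of_coprime (fun p hp q hq e => ?_) fun l h2 => ?_
    · exact (Nat.isCoprime_iff_coprime.2 ((Nat.coprime_primes (Nat.prime_of_mem_primeFactors hp)
        (Nat.prime_of_mem_primeFactors hq)).2 e)).pow
    · obtain ⟨h3, h4, h5⟩ := hl l (Nat.prime_of_mem_primeFactors h2) (Nat.dvd_of_mem_primeFactors h2)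
      exact h.both (Nat.prime_of_mem_primeFactors h2) h3 h4 h5
  refine Int.eq_zero_of_abs_lt_dvd h1 (lt_of_le_of_lt ?_ hn)
  have c1 : |e1 * f1| ≤ 729 * n ^ 2 := by
    rw [abs_mul]
    nlinarith [mul_le_mul b1 b2 (abs_nonneg _) (by linarith)]
  rw [abs_mul]
  have := mul_le_mul b2 (F_le c1 b3 b4) (abs_nonneg _) (by linarith)
  nlinarith [pow_nonneg n0 9]

theorem half {l a c y : ℤ} (hp : Prime l) (h1 : l ∣ a ^ 2 - c ^ 2)
    (h2 : ¬ l ^ 2 ∣ (a ^ 2 - c ^ 2) * y) : ¬ l ∣ 2 * c ^ 2 * (a ^ 2 - c ^ 2 + y) := by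
  intro h
  have h3 : ¬ l ∣ 2 * c := fun h3 => by
    refine h2 (Dvd.dvd.mul_right ?_ y)
    rw [sq_sub_sq, sq] at *
    rcases hp.dvd_or_dvd h1 with h4 | h4
    · exact mul_dvd_mul h4 (by simpa [two_mul] using h4.sub h3)
    · exact mul_dvd_mul (by convert h4.add h3 using 1; ring) h4
  rcases hp.dvd_or_dvd h with h4 | h4
  · rw [sq, ← mul_assoc] at h4
    exact (hp.dvd_or_dvd h4).elim h3 fun h5 => h3 (h5.mul_left 2)
  · exact h2 (sq l ▸ mul_dvd_mul h1 ((dvd_add_right h1).1 h4))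

/-- a factorisation into two cubics bounds the squarefree part -/
theorem cubic_small {a b c m k n : ℤ} (hS : S = a ^ 2 + b ^ 2)
    (hw : w = (a ^ 2 - c ^ 2) * (b ^ 2 - c ^ 2)) (hC : C = c ^ 2) (hmk : w = m * k)
    (hm : Squarefree m) (hk : IsCoprime m k) (m0 : 0 < m) (w0 : w ≠ 0) (S0 : S ≠ 0)
    (q5 : e1 + f1 = -2 * S) (q4 : e2 + e1 * f1 + f2 = S ^ 2 - 14 * w)
    (q3 : e3 + e2 * f1 + e1 * f2 + f3 = -2 * w * (S - 18 * C))
    (q2 : e3 * f1 + e2 * f2 + e1 * f3 = w * (w + 12 * C * S - 40 * C ^ 2))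
    (q1 : e3 * f2 + e2 * f3 = 4 * C * w * (w - 2 * C * S + 4 * C ^ 2))
    (q0 : e3 * f3 = -4 * C ^ 2 * w ^ 2) (b1 : |e1| ≤ 27 * n) (b2 : |f1| ≤ 27 * n)
    (b3 : |e1 ^ 2 - 4 * e2| ≤ 729 * n ^ 2) (b4 : |f1 ^ 2 - 4 * f2| ≤ 729 * n ^ 2)
    (b5 : |w| ≤ n ^ 2) : m ^ 5 ≤ 10 ^ 16 * n ^ 9 := by
  by_contra hn
  have h : Eqs S C w e1 e2 e3 f1 f2 f3 := ⟨q5, by linear_combination q4, by linear_combination q3,
    by linear_combination q2, by linear_combination q1, q0⟩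
  lift m to ℕ using m0.le
  have hl : ∀ l : ℕ, l.Prime → l ∣ m → (l : ℤ) ∣ w ∧ ¬ (l : ℤ) ^ 2 ∣ w ∧
      ¬ (l : ℤ) ∣ 2 * C * (S - 2 * C) := by
    intro l h1 h2
    have hp : Prime (l : ℤ) := Nat.prime_iff_prime_int.1 h1
    have h3 : (l : ℤ) ∣ m := by exact_mod_cast h2
    have h4 : ¬ (l : ℤ) ^ 2 ∣ w := fun h4 => hp.not_isUnit (hm _ (sq (l : ℤ) ▸
      ((hk.of_isCoprime_of_dvd_left h3).pow_left).dvd_of_dvd_mul_right (hmk ▸ h4)))
    have h5 : (l : ℤ) ∣ w := hmk ▸ h3.mul_right k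
    refine ⟨h5, h4, ?_⟩
    rw [hw] at h4 h5
    rcases hp.dvd_or_dvd h5 with h6 | h6
    · convert half hp h6 h4 using 2
      rw [hS, hC]
      ring
    · convert half hp h6 (mul_comm (a ^ 2 - c ^ 2) _ ▸ h4) using 2
      rw [hS, hC]
      ring
  have hm' : Squarefree m := Int.squarefree_natCast.1 hm
  have h1 := mul_eq_zero.1 (h.zero hm' hl b1 b2 b3 b5 (not_le.1 hn))
  have h2 := mul_eq_zero.1 (h.symm.zero hm' hl b2 b1 b4 b5 (not_le.1 hn))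
  rw [mul_comm f1] at h2
  have e : 2 * (e1 * f1) + 56 * w - (e1 ^ 2 - 4 * e2) = f1 ^ 2 - 4 * f2 := by
    linear_combination (2 * S - e1 - f1) * h.q1 + 4 * h.q2
  rcases h1 with h1 | h1 <;> rcases h2 with h2 | h2
  · omega
  · exact w0 (descent _ _ _ _ rfl h2 (Or.inl (by rw [h1, mul_zero])))
  · exact w0 (descent _ _ _ _ rfl h1 (Or.inl (by rw [h2, zero_mul])))
  · exact w0 (descent _ _ _ _ rfl h1 (Or.inr (e ▸ h2)))

end Pool.Agent.P.MP_50039c_nt.Sq3
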