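import Pool.Agent.P.MP_50039c_nt.SqD
import Pool.Agent.P.MP_50039c_nt.SqE

/-! Bounds for the coefficients of a cubic factor. -/

set_option autoImplicit false

namespace Pool.Agent.P.MP_50039c_nt.Sq

open Polynomial

theorem cubic_bounds {e1 e2 e3 n : ℤ}
    (h : ∀ y : ℂ, y ^ 3 + e1 * y ^ 2 + e2 * y + e3 = 0 → ‖y‖ ≤ 9 * (n : ℝ)) :
    |e1| ≤ 27 * n ∧ |e1 ^ 2 - 4 * e2| ≤ 729 * n ^ 2 := by
  obtain ⟨x, hx⟩ := IsAlgClosed.exists_root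
    (X ^ 3 + C (e1 : ℂ) * X ^ 2 + C (e2 : ℂ) * X + C (e3 : ℂ)) (by
      have hd : (X ^ 3 + C (e1 : ℂ) * X ^ 2 + C (e2 : ℂ) * X + C (e3 : ℂ) : ℂ[X]).degree = 3 := by
        compute_degree!
      rw [hd]
      decide)
  simp only [IsRoot.def, eval_add, eval_mul, eval_pow, eval_X, eval_C] at hx
  obtain ⟨r, hr⟩ := IsAlgClosed.exists_pow_nat_eq ((e1 + x) ^ 2 - 4 * (e2 + x * (e1 + x))) two_pos
  obtain ⟨y, hy⟩ : ∃ y, y = (-(e1 + x) + r) / 2 := ⟨_, rfl⟩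
  obtain ⟨z, hz⟩ : ∃ z, z = (-(e1 + x) - r) / 2 := ⟨_, rfl⟩
  have h1 : (e1 : ℂ) = -(x + y + z) := by rw [hy, hz]; ring
  have h2 : (e2 : ℂ) = x * y + x * z + y * z := by rw [hy, hz]; linear_combination hr / 4
  have h3 : (e3 : ℂ) = -(x * y * z) := by rw [h1, h2] at hx; linear_combination hx
  have bx := h x hx
  have by' := h y (by rw [h1, h2, h3]; ring)
  have bz := h z (by rw [h1, h2, h3]; ring)
  have pr : ∀ u v : ℂ, ‖u‖ ≤ 9 * (n : ℝ) → ‖v‖ ≤ 9 * (n : ℝ) → ‖u * v‖ ≤ 81 * (n : ℝ) ^ 2 :=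
    fun u v hu hv => by
      rw [norm_mul]
      nlinarith [mul_le_mul hu hv (norm_nonneg _) ((norm_nonneg _).trans hu)]
  constructor
  · have : ((|e1| : ℤ) : ℝ) ≤ 27 * n := by
      rw [Int.cast_abs, ← Complex.norm_intCast, h1, norm_neg]
      linarith [norm_add_le (x + y) z, norm_add_le x y]
    exact_mod_cast this
  · have : ((|e1 ^ 2 - 4 * e2| : ℤ) : ℝ) ≤ 729 * n ^ 2 := by
      rw [Int.cast_abs, ← Complex.norm_intCast, show ((e1 ^ 2 - 4 * e2 : ℤ) : ℂ) =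
        x * x + y * y + z * z - (x * y + x * z + y * z) - (x * y + x * z + y * z) by
          push_cast; rw [h1, h2]; ring]
      linarith [norm_sub_le (x * x + y * y + z * z - (x * y + x * z + y * z))
        (x * y + x * z + y * z), norm_sub_le (x * x + y * y + z * z) (x * y + x * z + y * z),
        norm_add_le (x * x + y * y) (z * z), norm_add_le (x * x) (y * y),
        norm_add_le (x * y + x * z) (y * z), norm_add_le (x * y) (x * z), pr x x bx bx,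
        pr y y by' by', pr z z bz bz, pr x y bx by', pr x z bx bz, pr y z by' bz]
    exact_mod_cast this

theorem split_small {a b c m k N : ℤ} (ha : 0 < a ∧ a ≤ N) (hb : 0 < b ∧ b ≤ N)
    (hc : 0 < c ∧ c ≤ N) (hw : (a ^ 2 - c ^ 2) * (b ^ 2 - c ^ 2) = m * k) (hm : Squarefree m)
    (hk : IsCoprime m k) (m0 : 0 < m) (w0 : (a ^ 2 - c ^ 2) * (b ^ 2 - c ^ 2) ≠ 0) {g h : ℤ[X]}
    (g1 : g.Monic) (h1 : h.Monic) (g3 : g.natDegree = 3) (h3 : h.natDegree = 3)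
    (e : sex a b c = g * h) : m ^ 5 ≤ 10 ^ 16 * N ^ 18 := by
  have N0 : 0 < N := ha.1.trans_le ha.2
  have sq' : ∀ x : ℤ, 0 < x ∧ x ≤ N → 0 ≤ (x : ℝ) ^ 2 ∧ (x : ℝ) ^ 2 ≤ (N : ℝ) ^ 2 := fun x hx =>
    ⟨sq_nonneg _, by exact_mod_cast pow_le_pow_left₀ hx.1.le hx.2 2⟩
  have rt : ∀ y : ℂ, qy ((a : ℂ) ^ 2 + b ^ 2) ((a ^ 2 - c ^ 2) * (b ^ 2 - c ^ 2)) (c ^ 2) y = 0 →
      ‖y‖ ≤ 9 * ((N ^ 2 : ℤ) : ℝ) := fun y hy => by
    have h2 := root_lt (θ := y - c ^ 2) (sq' a ha) (sq' b hb) (sq' c hc) (by positivity)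
      (by push_cast; rwa [sub_add_cancel])
    have h4 := norm_add_le (y - (c : ℂ) ^ 2) (c ^ 2)
    rw [sub_add_cancel, norm_pow, Complex.norm_intCast, sq_abs] at h4
    push_cast
    linarith [(sq' c hc).2]
  have ee : ∀ y, qy (a ^ 2 + b ^ 2) ((a ^ 2 - c ^ 2) * (b ^ 2 - c ^ 2)) (c ^ 2) y =
      g.eval (y + -c ^ 2) * h.eval (y + -c ^ 2) := fun y => by rw [← sex_eval, e, eval_mul]
  obtain ⟨u, hu⟩ := ev g1 g3 (-c ^ 2)
  obtain ⟨v, hv⟩ := ev h1 h3 (-c ^ 2)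
  simp only [hu, hv, Finset.sum_range_succ, Finset.sum_range_zero, qy] at ee
  obtain ⟨S, hS⟩ : ∃ S, S = a ^ 2 + b ^ 2 := ⟨_, rfl⟩
  obtain ⟨w, hw'⟩ : ∃ w, w = (a ^ 2 - c ^ 2) * (b ^ 2 - c ^ 2) := ⟨_, rfl⟩
  obtain ⟨D, hD'⟩ : ∃ D, D = c ^ 2 := ⟨_, rfl⟩
  rw [← hS, ← hw', ← hD'] at ee
  obtain ⟨e5, e4, e3, e2, e1, e0⟩ := ext6 (c5 := u 2 + v 2 - -2 * S)
    (c4 := u 1 + u 2 * v 2 + v 1 - (S ^ 2 - 14 * w))
    (c3 := u 0 + u 1 * v 2 + u 2 * v 1 + v 0 - -2 * w * (S - 18 * D))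
    (c2 := u 0 * v 2 + u 1 * v 1 + u 2 * v 0 - w * (w + 12 * D * S - 40 * D ^ 2))
    (c1 := u 0 * v 1 + u 1 * v 0 - 4 * D * w * (w - 2 * D * S + 4 * D ^ 2))
    (c0 := u 0 * v 0 - -4 * D ^ 2 * w ^ 2) fun y => by linear_combination -ee y
  rw [sub_eq_zero] at e5 e4 e3 e2 e1 e0
  have rt' : ∀ y : ℂ, (y ^ 3 + u 2 * y ^ 2 + u 1 * y + u 0) *
      (y ^ 3 + v 2 * y ^ 2 + v 1 * y + v 0) = 0 → ‖y‖ ≤ 9 * ((N ^ 2 : ℤ) : ℝ) := fun y hy => by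
    have f5 := congrArg (Int.cast : ℤ → ℂ) e5
    have f4 := congrArg (Int.cast : ℤ → ℂ) e4
    have f3 := congrArg (Int.cast : ℤ → ℂ) e3
    have f2 := congrArg (Int.cast : ℤ → ℂ) e2
    have f1 := congrArg (Int.cast : ℤ → ℂ) e1
    have f0 := congrArg (Int.cast : ℤ → ℂ) e0
    refine rt y ?_
    rw [show ((a : ℂ) ^ 2 - c ^ 2) * (b ^ 2 - c ^ 2) = w by rw [hw']; push_cast; rfl,
      show (a : ℂ) ^ 2 + b ^ 2 = S by rw [hS]; push_cast; rfl,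
      show (c : ℂ) ^ 2 = D by rw [hD']; push_cast; rfl, qy]
    push_cast at f5 f4 f3 f2 f1 f0
    linear_combination hy - y ^ 5 * f5 - y ^ 4 * f4 - y ^ 3 * f3 - y ^ 2 * f2 - y * f1 - f0
  obtain ⟨b1, b3⟩ := cubic_bounds fun y hy => rt' y (mul_eq_zero_of_left hy _)
  obtain ⟨b2, b4⟩ := cubic_bounds fun y hy => rt' y (mul_eq_zero_of_right _ hy)
  have r4 := pow_le_pow_left₀ ha.1.le ha.2 2
  have r5 := pow_le_pow_left₀ hb.1.le hb.2 2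
  have r6 := pow_le_pow_left₀ hc.1.le hc.2 2
  have := Sq3.cubic_small hS hw' hD' (hw'.trans hw) hm hk m0 (hw' ▸ w0)
    (by have := pow_pos ha.1 2; have := sq_nonneg b; omega) e5 e4 e3 e2 e1 e0 b1 b2 b3 b4 (by
      rw [hw', abs_mul, sq (N ^ 2)]
      exact mul_le_mul (abs_le.2 ⟨by linarith [sq_nonneg a], by linarith [sq_nonneg c]⟩)
        (abs_le.2 ⟨by linarith [sq_nonneg b], by linarith [sq_nonneg c]⟩) (abs_nonneg _)
        (sq_nonneg _))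
  rwa [← pow_mul] at this

end Pool.Agent.P.MP_50039c_nt.Sq
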